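import Mathlib
import Pool.Agent.Run7.h854.PQ.Mart
import Pool.Agent.Run7.h854.LB.FM

set_option autoImplicit false

/-!
# The conditional means of the exponents: a summable error
-/

namespace Run7.h854.CO

open Finset Filter Topology
open Pool.Agent.H305R2 (roughPart log_nat_tendsto)
open Pool.Agent.N176.OW (cell kap S_FM)
open Pool.Agent.N176.GP (sum_cells sum_div)
open Pool.Agent.N176.SH
open Run7.h854.PO Run7.h854.PQ Run7.h854.LB

/-- the mean over the cells of level `z ≤ κ0 q`, with the error `K / q` removed -/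
theorem fm_max (A : ℕ) (hA64 : 64 ≤ A) : ∃ κ0 : ℝ, 0 < κ0 ∧ κ0 < 1 / 2 ∧
    ∀ (b : ℕ) (c : ℕ → ℤ), Ok b A c →
    ∃ K : ℝ, 0 < K ∧ ∀ m0 : ℕ, ∃ P : ℕ, ∀ q ≥ P, ∀ z : ℕ, m0 ≤ z →
    (z : ℝ) ≤ κ0 * q → q ≤ b ^ z →
    ∑ j ∈ Ico (b ^ (z - m0)) (b ^ (z + m0)),
      max 0 (|(cnt c b z j q : ℝ) / (b : ℝ) ^ (q - z) - kap b * (Real.log q / q)| - K / q) ≤
    (b : ℝ) ^ z * ((Real.log q) ^ 2 / q ^ 2) := by
  obtain ⟨κ1, hκ1, hU⟩ := fmU
  have hA0 : (0 : ℝ) < A := by exact_mod_cast (by omega : 0 < A)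
  refine ⟨min κ1 (1 / (4 * A)), by positivity, ?_, fun b c hOk => ?_⟩
  · refine (min_le_right _ _).trans_lt ?_
    rw [div_lt_div_iff₀ (by positivity) (by norm_num)]
    have : (64 : ℝ) ≤ A := by exact_mod_cast hA64
    linarith
  have hb := hOk.hb
  have hb0 : (0 : ℝ) < b := by positivity
  obtain ⟨K1, hK1, h⟩ := hU b hb
  refine ⟨K1 + 1, by positivity, fun m0 => ?_⟩
  obtain ⟨P1, hP1⟩ := h m0
  refine ⟨max P1 (A + 1), fun q hq z hm0 hz hqz => ?_⟩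
  have hqP1 : P1 ≤ q := (le_max_left _ _).trans hq
  have hqA : A + 1 ≤ q := (le_max_right _ _).trans hq
  have hq0 : (0 : ℝ) < q := by exact_mod_cast (by omega : 0 < q)
  have hz1 : (z : ℝ) ≤ κ1 * q := hz.trans (mul_le_mul_of_nonneg_right (min_le_left _ _) hq0.le)
  have hz2 : A * z ≤ q := by
    have h1 : (z : ℝ) ≤ 1 / (4 * A) * q := hz.trans (mul_le_mul_of_nonneg_right (min_le_right _ _) hq0.le)
    have h2 : (A : ℝ) * z ≤ q := by
      calc (A : ℝ) * z ≤ A * (1 / (4 * A) * q) := mul_le_mul_of_nonneg_left h1 hA0.le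
        _ = q / 4 := by field_simp
        _ ≤ q := by linarith
    exact_mod_cast h2
  have hbz : (0 : ℝ) < (b : ℝ) ^ z := by positivity
  have hinv : 1 / (b : ℝ) ^ z ≤ 1 / q := by
    apply one_div_le_one_div_of_le hq0
    exact_mod_cast hqz
  refine le_trans (Finset.sum_le_sum fun j hj => ?_) (hP1 q hqP1 z hm0 hz1)
  rw [mem_Ico] at hj
  have hj1 : 1 ≤ j := by
    have : 1 ≤ b ^ (z - m0) := Nat.one_le_pow _ _ (by omega)
    omega
  have h3 := Pool.Agent.N607.SH.cnt_shift hOk hj1 hz2 (by omega)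
  have h5 : |(cnt c b z j q : ℝ) / (b : ℝ) ^ (q - z) - kap b * (Real.log q / q)| ≤
      |(cnt c b z j q : ℝ) / (b : ℝ) ^ (q - z) -
        (Pool.Agent.N176.GP.cnt b z j q : ℝ) / (b : ℝ) ^ (q - z)| +
      |(Pool.Agent.N176.GP.cnt b z j q : ℝ) / (b : ℝ) ^ (q - z) - kap b * (Real.log q / q)| :=
    abs_sub_le _ _ _
  have h6 : (K1 + 1) / (q : ℝ) = K1 / q + 1 / q := by ring
  refine max_le_max le_rfl ?_
  unfold kap at h5 ⊢
  rw [h6]
  linarith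

/-! ## conditional means -/

lemma GG_level {b s u t : ℕ} (hb : 2 ≤ b) (hsu : s ≤ u) (hut : u ≤ t) (f : ℕ → ℝ) (i : ℕ) :
    GG b s t (fun n => f (n / b ^ (t - u))) i = GG b s u f i := by
  unfold GG
  rw [Av_level hb hsu hut (Nat.le_succ i)]

lemma GG_tower {b s y t : ℕ} (hb : 2 ≤ b) (hsy : s ≤ y) (hyt : y ≤ t) (F : ℕ → ℝ) (i : ℕ) :
    GG b s t F i = GG b s y (GG b y t F) i := by
  have hb0 : (0 : ℝ) < b := by positivity
  unfold GG
  rw [Av_split hsy hyt (Nat.le_succ i)]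
  congr 1
  have e : Av b s i (i + 1) y (fun j => (b : ℝ) ^ y * Av b y j (j + 1) t F) =
      (b : ℝ) ^ y * Av b s i (i + 1) y (fun j => Av b y j (j + 1) t F) := Av_mul _ _
  rw [e]
  have e2 : Av b s i (i + 1) y (fun j => Av b y j (j + 1) t F) =
      (∑ j ∈ Ico (i * b ^ (y - s)) ((i + 1) * b ^ (y - s)), Av b y j (j + 1) t F) / (b : ℝ) ^ y := rfl
  rw [e2]
  field_simp

lemma GG_mono {b s t : ℕ} {f g : ℕ → ℝ} (h : ∀ n, f n ≤ g n) (i : ℕ) :
    GG b s t f i ≤ GG b s t g i := by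
  unfold GG
  exact mul_le_mul_of_nonneg_left (Av_mono h) (by positivity)

lemma GG_nonneg {b s t : ℕ} {f : ℕ → ℝ} (h : ∀ n, 0 ≤ f n) (i : ℕ) : 0 ≤ GG b s t f i := by
  unfold GG
  exact mul_nonneg (by positivity) (Av_nonneg h)

lemma GG_const {b s t : ℕ} (hb : 2 ≤ b) (hst : s ≤ t) (r : ℝ) (i : ℕ) :
    GG b s t (fun _ => r) i = r := by
  have hb0 : (0 : ℝ) < b := by positivity
  unfold GG
  have e : Av b s i (i + 1) t (fun _ => r) = r * Av b s i (i + 1) t (fun _ => 1) := by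
    rw [← Av_mul]
    simp only [mul_one]
  rw [e, Av_one hb hst (Nat.le_succ i)]
  push_cast
  field_simp
  ring

lemma GG_add {b s t : ℕ} (f g : ℕ → ℝ) (i : ℕ) :
    GG b s t (fun n => f n + g n) i = GG b s t f i + GG b s t g i := by
  unfold GG
  rw [Av_add, mul_add]

lemma GG_sub {b s t : ℕ} (f g : ℕ → ℝ) (i : ℕ) :
    GG b s t (fun n => f n - g n) i = GG b s t f i - GG b s t g i := by
  unfold GG
  rw [Av_sub, mul_sub]

lemma GG_abs {b s t : ℕ} (f : ℕ → ℝ) (i : ℕ) : |GG b s t f i| ≤ GG b s t (fun n => |f n|) i := by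
  unfold GG
  rw [abs_mul, abs_of_nonneg (show (0 : ℝ) ≤ (b : ℝ) ^ s by positivity)]
  exact mul_le_mul_of_nonneg_left (Av_abs _) (by positivity)

lemma GG_sum {b s t : ℕ} {ι : Type*} (T : Finset ι) (f : ι → ℕ → ℝ) (i : ℕ) :
    GG b s t (fun n => ∑ q ∈ T, f q n) i = ∑ q ∈ T, GG b s t (f q) i := by
  unfold GG
  rw [Av_sum, Finset.mul_sum]

/-- the mean of the conditional means -/
lemma Av_GG {b m a1 a2 s t : ℕ} (hb : 2 ≤ b) (hms : m ≤ s) (hst : s ≤ t) (h12 : a1 ≤ a2) (F : ℕ → ℝ) :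
    Av b m a1 a2 s (GG b s t F) = Av b m a1 a2 t F := by
  have hb0 : (0 : ℝ) < b := by positivity
  rw [Av_split hms hst h12]
  unfold GG
  rw [Av_mul]
  have e2 : Av b m a1 a2 s (fun j => Av b s j (j + 1) t F) =
      (∑ j ∈ Ico (a1 * b ^ (s - m)) (a2 * b ^ (s - m)), Av b s j (j + 1) t F) / (b : ℝ) ^ s := rfl
  rw [e2]
  field_simp

/-- the product with a function of the digits up to `s` -/
lemma GG_mul {b s t : ℕ} (f F : ℕ → ℝ) (i : ℕ) :
    GG b s t (fun n => f (n / b ^ (t - s)) * F n) i = f i * GG b s t F i := by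
  unfold GG
  have h1 : Av b s i (i + 1) t (fun n => f (n / b ^ (t - s)) * F n) =
      Av b s i (i + 1) t (fun n => f i * F n) := by
    unfold Av
    congr 1
    refine Finset.sum_congr rfl fun n hn => ?_
    rw [mem_Ico] at hn
    have h2 : n / b ^ (t - s) = i := Nat.div_eq_of_lt_le hn.1 hn.2
    simp only [h2]
  rw [h1, Av_mul]
  ring

lemma GG_Y {b : ℕ} (c : ℕ → ℤ) {y q : ℕ} (hb : 2 ≤ b) (hyq : y ≤ q) (j : ℕ) :
    GG b y q (Y c q) j = (cnt c b y j q : ℝ) / (b : ℝ) ^ (q - y) := by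
  have hb0 : (0 : ℝ) < b := by positivity
  unfold GG Av
  rw [← cnt_eq_sum]
  have e : (b : ℝ) ^ q = (b : ℝ) ^ y * (b : ℝ) ^ (q - y) := by rw [← pow_add]; congr 1; omega
  rw [e]
  field_simp

/-- the exceptional part of the deviation, at the level `⌊κ0 q⌋` -/
noncomputable def Rq (c : ℕ → ℤ) (b : ℕ) (κ0 K : ℝ) (q j : ℕ) : ℝ :=
  max 0 (|(cnt c b ⌊κ0 * q⌋₊ j q : ℝ) / (b : ℝ) ^ (q - ⌊κ0 * q⌋₊) - kap b * (Real.log q / q)| - K / q)

lemma Rq_nonneg (c : ℕ → ℤ) (b : ℕ) (κ0 K : ℝ) (q j : ℕ) : 0 ≤ Rq c b κ0 K q j := le_max_left _ _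

/-- the conditional mean of an exponent -/
lemma dev_le {b : ℕ} (hb : 2 ≤ b) (c : ℕ → ℤ) {κ0 K : ℝ} (hκ0 : 0 < κ0) (hκ1 : κ0 < 1 / 2) {s q t : ℕ}
    (hs : (s : ℝ) ≤ κ0 * q) (hqt : q ≤ t) (i : ℕ) :
    |GG b s t (fun n => Y c q (n / b ^ (t - q))) i - kap b * (Real.log q / q)| ≤
      K / q + GG b s ⌊κ0 * q⌋₊ (Rq c b κ0 K q) i := by
  set y := ⌊κ0 * (q : ℝ)⌋₊ with hy
  have hsy : s ≤ y := Nat.le_floor hs
  have hyq : y ≤ q := by
    have h1 : (y : ℝ) ≤ κ0 * q := Nat.floor_le (by positivity)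
    have h2 : κ0 * q ≤ 1 * q := mul_le_mul_of_nonneg_right (by linarith) (Nat.cast_nonneg q)
    have h3 : (y : ℝ) ≤ q := by linarith
    exact_mod_cast h3
  have hsq : s ≤ q := hsy.trans hyq
  rw [GG_level hb hsq hqt, GG_tower hb hsy hyq]
  have e1 : GG b s y (GG b y q (Y c q)) i - kap b * (Real.log q / q) =
      GG b s y (fun j => GG b y q (Y c q) j - kap b * (Real.log q / q)) i := by
    rw [GG_sub, GG_const hb hsy]
  rw [e1]
  refine (GG_abs _ _).trans ?_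
  rw [← GG_const hb hsy (K / q) i, ← GG_add]
  refine GG_mono (fun j => ?_) i
  rw [GG_Y c hb hyq]
  unfold Rq
  rw [← hy]
  have := le_max_right 0 (|(cnt c b y j q : ℝ) / (b : ℝ) ^ (q - y) - kap b * (Real.log q / q)| - K / q)
  linarith

/-- the mean of the exceptional part -/
theorem Rq_mean (A : ℕ) (hA64 : 64 ≤ A) :
    ∃ κ0 : ℝ, 0 < κ0 ∧ κ0 < 1 / 2 ∧ ∀ (b : ℕ) (c : ℕ → ℤ), Ok b A c → ∃ K : ℝ, 0 < K ∧
    ∀ m a1 a2 : ℕ, 1 ≤ a1 → a1 ≤ a2 →
    ∃ P : ℕ, ∀ q ≥ P, Av b m a1 a2 ⌊κ0 * q⌋₊ (Rq c b κ0 K q) ≤ (Real.log q) ^ 2 / q ^ 2 := by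
  obtain ⟨κ0, hκ0, hκ1, hU⟩ := fm_max A hA64
  refine ⟨κ0, hκ0, hκ1, fun b c hOk => ?_⟩
  have hb := hOk.hb
  have hb0 : (0 : ℝ) < b := by positivity
  obtain ⟨K, hK, h⟩ := hU b c hOk
  refine ⟨K, hK, fun m a1 a2 h1 h12 => ?_⟩
  obtain ⟨P, hP⟩ := h (m + a2)
  obtain ⟨P4, hP4⟩ := eventually_atTop.1 (Pool.Agent.N176.GP.grow (κ0 * Real.log 2) 2
    (mul_pos hκ0 (Real.log_pos (by norm_num))))
  obtain ⟨P5, hP5⟩ := exists_nat_ge ((m + a2 + 1) / κ0)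
  refine ⟨max P (max P4 (max P5 1)), fun q hq => ?_⟩
  have hqP : P ≤ q := by omega
  have hqP4 : P4 ≤ q := by omega
  have hqP5 : P5 ≤ q := by omega
  have hq1 : 1 ≤ q := by omega
  have hq0 : (0 : ℝ) < q := by exact_mod_cast hq1
  have hqr : (1 : ℝ) ≤ q := by exact_mod_cast hq1
  set y := ⌊κ0 * q⌋₊ with hy
  have hy1 : (y : ℝ) ≤ κ0 * q := Nat.floor_le (by positivity)
  have hy2 : κ0 * q < y + 1 := Nat.lt_floor_add_one _
  have hy3 : m + a2 ≤ y := by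
    have h2 : ((m : ℝ) + a2 + 1) ≤ κ0 * q := by
      rw [div_le_iff₀ hκ0] at hP5
      calc ((m : ℝ) + a2 + 1) ≤ P5 * κ0 := hP5
        _ ≤ q * κ0 := mul_le_mul_of_nonneg_right (by exact_mod_cast hqP5) hκ0.le
        _ = _ := mul_comm _ _
    have h3 : ((m + a2 : ℕ) : ℝ) < (y : ℝ) + 1 := by push_cast; linarith
    have h4 : m + a2 < y + 1 := by exact_mod_cast h3
    omega
  have hy4 : q ≤ b ^ y := by
    have h2 := hP4 q hqP4
    have h3 : (q : ℝ) ≤ (2 : ℝ) ^ y := by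
      have e : (2 : ℝ) ^ y = Real.exp (y * Real.log 2) := by
        rw [mul_comm, Real.exp_mul, Real.exp_log (by norm_num), Real.rpow_natCast]
      have h4 : Real.exp (κ0 * Real.log 2 * q) ≤ 2 * Real.exp (y * Real.log 2) := by
        have e2 : (2 : ℝ) * Real.exp (y * Real.log 2) = Real.exp ((y + 1) * Real.log 2) := by
          rw [add_mul, one_mul, Real.exp_add, Real.exp_log (by norm_num), mul_comm]
        rw [e2, Real.exp_le_exp]
        have := Real.log_pos (show (1 : ℝ) < 2 by norm_num)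
        nlinarith
      rw [e]
      nlinarith
    have h5 : (2 : ℝ) ^ y ≤ (b : ℝ) ^ y := by
      gcongr
      exact_mod_cast hb
    exact_mod_cast h3.trans h5
  have hsub : Ico (a1 * b ^ (y - m)) (a2 * b ^ (y - m)) ⊆
      Ico (b ^ (y - (m + a2))) (b ^ (y + (m + a2))) := by
    intro j hj
    rw [mem_Ico] at hj ⊢
    have h4 : a2 < b ^ a2 := Nat.lt_pow_self (by omega)
    have h5 : b ^ (y - (m + a2)) ≤ b ^ (y - m) := Nat.pow_le_pow_right (by omega) (by omega)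
    have h6 : b ^ (y - m) ≤ a1 * b ^ (y - m) := Nat.le_mul_of_pos_left _ h1
    have h7 : a2 * b ^ (y - m) ≤ b ^ a2 * b ^ (y - m) := Nat.mul_le_mul_right _ h4.le
    have h8 : b ^ a2 * b ^ (y - m) ≤ b ^ (y + (m + a2)) := by
      rw [← pow_add]
      exact Nat.pow_le_pow_right (by omega) (by omega)
    omega
  have hsum : ∑ j ∈ Ico (a1 * b ^ (y - m)) (a2 * b ^ (y - m)), Rq c b κ0 K q j ≤
      (b : ℝ) ^ y * ((Real.log q) ^ 2 / q ^ 2) :=
    (Finset.sum_le_sum_of_subset_of_nonneg hsub fun _ _ _ => Rq_nonneg _ _ _ _ _ _).trans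
      (hP q hqP y hy3 hy1 hy4)
  unfold Av
  rw [div_le_iff₀ (by positivity)]
  exact hsum.trans (le_of_eq (mul_comm _ _))

end Run7.h854.CO
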