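import Mathlib
import Pool.Agent.Run7.h854.CO.FMax
import Pool.Agent.Run7.h854.PQ.ErrLe
import Pool.Agent.Run7.h854.LB.Pair
import Pool.Agent.Run7.h854.PO.All

set_option autoImplicit false

/-!
# Second moments
-/

namespace Run7.h854.CO

open Finset Filter Topology
open Pool.Agent.H305R2 (roughPart log_nat_tendsto)
open Pool.Agent.N176.OW (cell kap S_FM)
open Pool.Agent.N176.GP (sum_cells sum_div)
open Pool.Agent.N176.SH
open Run7.h854.PO Run7.h854.PQ Run7.h854.LB

/-- the number of exponents in `T`, as a function of the digits up to the level `t` -/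
noncomputable def Zn (c : ℕ → ℤ) (b : ℕ) (T : Finset ℕ) (t n : ℕ) : ℝ :=
  ∑ q ∈ T, Y c q (n / b ^ (t - q))

lemma Zn_nonneg (c : ℕ → ℤ) (b : ℕ) (T : Finset ℕ) (t n : ℕ) : 0 ≤ Zn c b T t n :=
  Finset.sum_nonneg fun q _ => Y_nonneg c q _

lemma Zn_level (c : ℕ → ℤ) (b : ℕ) {T : Finset ℕ} {s t : ℕ} (hT : ∀ q ∈ T, q ≤ s) (hst : s ≤ t)
    (n : ℕ) : Zn c b T t n = Zn c b T s (n / b ^ (t - s)) := by
  unfold Zn
  refine Finset.sum_congr rfl fun q hq => ?_
  rw [PO.div_div (hT q hq) hst]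

lemma Y_sq (c : ℕ → ℤ) (p m : ℕ) : Y c p m ^ 2 = Y c p m := by
  unfold Y
  split_ifs <;> norm_num

/-- the second moment of the number of exponents, in all cells -/
theorem Zn_sq {b A : ℕ} {c : ℕ → ℤ} (hOk : Ok b A c) : ∃ C : ℝ, 0 < C ∧ ∃ P : ℕ,
    ∀ z i t : ℕ, 1 ≤ i → i ≤ b ^ (2 * z) → z ≤ t → ∀ T : Finset ℕ,
    (∀ p ∈ T, P ≤ p ∧ 2 * A * z ≤ p ∧ p < t) →
    GG b z t (fun n => Zn c b T t n ^ 2) i ≤
      C * (∑ q ∈ T, Real.log q / (q : ℝ) + err b 0 T) := by
  classical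
  have hb := hOk.hb
  have hb0 : (0 : ℝ) < b := by positivity
  obtain ⟨C1, hC1, P1, hP1⟩ := cnt_up hb c
  obtain ⟨C2, hC2, P2, hP2⟩ := pair_all tu' rb' hOk
  refine ⟨C1 + 2 * C2, by positivity, max P1 (max P2 1), ?_⟩
  intro z i t hi1 hi2 hzt T
  induction T using Finset.induction_on_max with
  | empty =>
    intro _
    have : (fun n => Zn c b ∅ t n ^ 2) = fun _ => (0 : ℝ) := by
      funext n
      unfold Zn
      simp
    rw [this, GG_const hb hzt]
    unfold err
    simp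
  | insert q T hq ih =>
    intro hT
    have hqT : q ∉ T := fun h => lt_irrefl _ (hq q h)
    have ih' := ih fun p hp => hT p (mem_insert_of_mem hp)
    obtain ⟨hPq, hzq, hqt⟩ := hT q (mem_insert_self _ _)
    have hA64 := hOk.hA
    have hzq' : 3 * z ≤ 2 * q := by
      have : 64 * z ≤ A * z := Nat.mul_le_mul_right z hA64
      have h2 : 2 * (A * z) ≤ q := by rw [← mul_assoc]; exact hzq
      omega
    have hzq2 : z ≤ q := by
      have : 64 * z ≤ A * z := Nat.mul_le_mul_right z hA64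
      have h2 : 2 * (A * z) ≤ q := by rw [← mul_assoc]; exact hzq
      omega
    have e1 : (fun n => Zn c b (insert q T) t n ^ 2) = fun n =>
        (Y c q (n / b ^ (t - q)) + 2 * ∑ p ∈ T, Y c p (n / b ^ (t - p)) * Y c q (n / b ^ (t - q))) +
          Zn c b T t n ^ 2 := by
      funext n
      unfold Zn
      rw [Finset.sum_insert hqT, add_sq, Y_sq, ← Finset.sum_mul]
      ring
    have h1 : GG b z t (fun n => Y c q (n / b ^ (t - q))) i ≤ C1 * (Real.log q / q) := by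
      rw [GG_level hb hzq2 hqt.le, GG_Y c hb hzq2, div_le_iff₀ (by positivity)]
      exact hP1 q ((le_max_left _ _).trans hPq) z hzq' i
    have h2 : ∀ p ∈ T, GG b z t (fun n => Y c p (n / b ^ (t - p)) * Y c q (n / b ^ (t - q))) i ≤
        C2 * WW2 b p q := by
      intro p hp
      obtain ⟨hPp, hzp, _⟩ := hT p (mem_insert_of_mem hp)
      have h3 := hP2 p (((le_max_left _ _).trans (le_max_right _ _)).trans hPp) q (hq p hp) z hzp i hi1 hi2
        t hqt
      have e2 : GG b z t (fun n => Y c p (n / b ^ (t - p)) * Y c q (n / b ^ (t - q))) i =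
          (∑ n ∈ cell b z t i, Y c p (n / b ^ (t - p)) * Y c q (n / b ^ (t - q))) /
            (b : ℝ) ^ (t - z) := by
        have e3 : (b : ℝ) ^ t = (b : ℝ) ^ z * (b : ℝ) ^ (t - z) := by
          rw [← pow_add]; congr 1; omega
        unfold GG Av cell
        rw [e3]
        field_simp
      rw [e2, div_le_iff₀ (by positivity)]
      exact h3
    have hq1 : 1 ≤ q := ((le_max_right _ _).trans (le_max_right _ _)).trans hPq
    rw [e1, GG_add, GG_add]
    have e4 : GG b z t (fun n => 2 * ∑ p ∈ T, Y c p (n / b ^ (t - p)) * Y c q (n / b ^ (t - q))) i =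
        2 * ∑ p ∈ T, GG b z t (fun n => Y c p (n / b ^ (t - p)) * Y c q (n / b ^ (t - q))) i := by
      rw [← GG_sum]
      unfold GG
      rw [Av_mul]
      ring
    rw [e4, Finset.sum_insert hqT, err_insert b 0 hq]
    have h3 : ∑ p ∈ T, GG b z t (fun n => Y c p (n / b ^ (t - p)) * Y c q (n / b ^ (t - q))) i ≤
        C2 * ∑ p ∈ T.filter (fun p : ℕ => (0 : ℝ) * q < p), WW2 b p q := by
      rw [Finset.mul_sum]
      have e5 : T.filter (fun p : ℕ => (0 : ℝ) * q < p) = T := by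
        refine Finset.filter_true_of_mem fun p hp => ?_
        rw [zero_mul]
        have := ((le_max_right _ _).trans (le_max_right _ _)).trans (hT p (mem_insert_of_mem hp)).1
        exact_mod_cast this
      rw [e5]
      exact Finset.sum_le_sum h2
    have h4 : 0 ≤ Real.log q / (q : ℝ) := lg_nonneg q
    have h5 : 0 ≤ ∑ p ∈ T.filter (fun p : ℕ => (0 : ℝ) * q < p), WW2 b p q :=
      Finset.sum_nonneg fun p _ => WW2_nonneg b p q
    have h6 : 0 ≤ 1 / (q : ℝ) := by positivity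
    have e6 : (C1 + 2 * C2) * (Real.log q / (q : ℝ) + ∑ q ∈ T, Real.log q / (q : ℝ) +
        (1 / (q : ℝ) + ∑ p ∈ T.filter (fun p : ℕ => (0 : ℝ) * q < p), WW2 b p q + err b 0 T)) =
        C1 * (Real.log q / (q : ℝ)) + 2 * (C2 * ∑ p ∈ T.filter (fun p : ℕ => (0 : ℝ) * q < p), WW2 b p q) +
        (C1 + 2 * C2) * (∑ q ∈ T, Real.log q / (q : ℝ) + err b 0 T) +
        (2 * C2 * (Real.log q / (q : ℝ)) + (C1 + 2 * C2) * (1 / (q : ℝ)) +
          C1 * ∑ p ∈ T.filter (fun p : ℕ => (0 : ℝ) * q < p), WW2 b p q) := by ring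
    rw [e6]
    have h7 : 0 ≤ 2 * C2 * (Real.log q / (q : ℝ)) + (C1 + 2 * C2) * (1 / (q : ℝ)) +
          C1 * ∑ p ∈ T.filter (fun p : ℕ => (0 : ℝ) * q < p), WW2 b p q := by positivity
    linarith

/-- the error term with weights bounded by `W` -/
lemma err_W {b : ℕ} (hb : 2 ≤ b) {T : Finset ℕ} {W : ℝ} (hW0 : 0 ≤ W) (h3 : ∀ q ∈ T, 3 ≤ q)
    (hW : ∑ q ∈ T, Real.log q / (q : ℝ) ≤ W) :
    ∑ q ∈ T, Real.log q / (q : ℝ) + err b 0 T ≤ 6 * W + W ^ 2 := by
  classical
  have h1 := err_le hb (κ0 := 0) T (ε := W) (fun q _ => by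
    refine (Finset.sum_le_sum_of_subset_of_nonneg (Finset.filter_subset _ _) fun p _ _ =>
      lg_nonneg p).trans hW) 0
  have h2 : ∑ q ∈ T, 1 / (q : ℝ) ≤ ∑ q ∈ T, Real.log q / (q : ℝ) := by
    refine Finset.sum_le_sum fun q hq => ?_
    refine div_le_div_of_nonneg_right ?_ (Nat.cast_nonneg q)
    have h4 : (3 : ℝ) ≤ q := by exact_mod_cast h3 q hq
    rw [Real.le_log_iff_exp_le (by linarith)]
    have := Real.exp_one_lt_d9
    linarith
  rw [show Icc 1 0 = (∅ : Finset ℕ) from rfl, Finset.sum_empty, pow_zero, mul_one, zero_add] at h1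
  have h4 : W * ∑ q ∈ T, Real.log q / (q : ℝ) ≤ W * W := mul_le_mul_of_nonneg_left hW hW0
  nlinarith

end Run7.h854.CO
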