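import Mathlib
import Pool.Agent.Run7.h854.CO.Mom
import Pool.Agent.Run7.h854.PQ.AE

set_option autoImplicit false

/-!
# Products of the numbers of exponents in distant windows, for almost every amplitude
-/

namespace Run7.h854.CO

open Finset Filter Topology MeasureTheory
open Pool.Agent.H305R2 (roughPart log_nat_tendsto)
open Pool.Agent.N176.OW (cell kap S_FM)
open Pool.Agent.N176.GP (NB NB_spec NB_div)
open Pool.Agent.N176.SH
open Run7.h854.PO Run7.h854.PQ Run7.h854.LB

open Classical in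
/-- Borel–Cantelli for sets given by the digits, with a summable bound -/
lemma bc' {b m a1 a2 : ℕ} (hb : 2 ≤ b) {t : ℕ → ℕ} (hmt : ∀ i, m ≤ t i) (Q : ℕ → ℕ → Prop)
    {g : ℕ → ℝ} (hg : Summable g) (hQ : ∀ i : ℕ, Av b m a1 a2 (t i) (fun n => if Q i n then 1 else 0) ≤
      g i) :
    ∀ᵐ β : ℝ, (a1 : ℝ) / (b : ℝ) ^ m < β → β ≤ (a2 : ℝ) / (b : ℝ) ^ m →
      ∀ᶠ i in atTop, ¬ Q i (NB b β (t i)) := by
  set E : ℕ → Set ℝ := fun i => {β : ℝ | (a1 : ℝ) / (b : ℝ) ^ m < β ∧ β ≤ (a2 : ℝ) / (b : ℝ) ^ m ∧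
    Q i (NB b β (t i))} with hE
  have hfin : ∑' i, volume (E i) ≠ ⊤ := by
    refine ne_top_of_le_ne_top hg.tsum_ofReal_ne_top (ENNReal.tsum_le_tsum fun i => ?_)
    rw [hE]
    simp only
    rw [vol_eq hb (hmt i) (Q i)]
    exact ENNReal.ofReal_le_ofReal (hQ i)
  filter_upwards [ae_eventually_notMem hfin] with β hβ h1 h2
  filter_upwards [hβ] with i hi hQi
  exact hi ⟨h1, h2, hQi⟩

lemma Av_mono' {b m a1 a2 t : ℕ} {f g : ℕ → ℝ}
    (h : ∀ n ∈ Ico (a1 * b ^ (t - m)) (a2 * b ^ (t - m)), f n ≤ g n) :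
    Av b m a1 a2 t f ≤ Av b m a1 a2 t g := by
  unfold Av
  exact div_le_div_of_nonneg_right (Finset.sum_le_sum h) (by positivity)

/-- the second moment of a difference -/
lemma DD_sq {b m a1 a2 s t : ℕ} (hb : 2 ≤ b) (hms : m ≤ s) (hst : s ≤ t) (h12 : a1 ≤ a2)
    (F : ℕ → ℝ) : Av b m a1 a2 t (fun n => DD b s t F n ^ 2) ≤ Av b m a1 a2 t (fun n => F n ^ 2) := by
  have e1 : (fun n => F n ^ 2) = fun n => (DD b s t F n ^ 2 +
      2 * (GG b s t F (n / b ^ (t - s)) * DD b s t F n)) + GG b s t F (n / b ^ (t - s)) ^ 2 := by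
    funext n
    unfold DD
    ring
  rw [e1, Av_add, Av_add, Av_mul, Av_mul_DD hb hms hst h12, mul_zero, add_zero]
  have : 0 ≤ Av b m a1 a2 t (fun n => GG b s t F (n / b ^ (t - s)) ^ 2) :=
    Av_nonneg fun n => sq_nonneg _
  linarith

/-- the second moment of a sum of differences -/
theorem SS_sq' {b : ℕ} {z : ℕ → ℕ} {F : ℕ → ℕ → ℝ} {m a1 a2 : ℕ} (hb : 2 ≤ b) (hz : Monotone z)
    (hm : m ≤ z 0) (h12 : a1 ≤ a2) {M2 : ℝ}
    (hF : ∀ j, Av b m a1 a2 (z (j + 1)) (fun n => F j n ^ 2) ≤ M2) (J : ℕ) :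
    Av b m a1 a2 (z J) (fun n => SS b z F J n ^ 2) ≤ J * M2 := by
  have hmz : ∀ j, m ≤ z j := fun j => hm.trans (hz (Nat.zero_le j))
  induction J with
  | zero =>
    have : (fun n => SS b z F 0 n ^ 2) = fun _ => 0 := by
      funext n
      unfold SS
      simp
    rw [this]
    unfold Av
    simp
  | succ J ih =>
    set D := DD b (z J) (z (J + 1)) (F J) with hD
    have hzJ : z J ≤ z (J + 1) := hz (Nat.le_succ J)
    have e1 : (fun n => SS b z F (J + 1) n ^ 2) = fun n =>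
        (SS b z F J (n / b ^ (z (J + 1) - z J)) ^ 2 +
          (2 * (SS b z F J (n / b ^ (z (J + 1) - z J)) * D n))) + D n ^ 2 := by
      funext n
      rw [SS_succ hz, hD]
      ring
    have e2 := Av_level (a1 := a1) (a2 := a2) hb (hmz J) hzJ h12 (fun n => SS b z F J n ^ 2)
    have e3 := Av_mul_DD (a1 := a1) (a2 := a2) hb (hmz J) hzJ h12 (SS b z F J) (F J)
    rw [← hD] at e3
    rw [e1, Av_add, Av_add, e2, Av_mul, e3, mul_zero, add_zero]
    have h2 : Av b m a1 a2 (z (J + 1)) (fun n => D n ^ 2) ≤ M2 :=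
      (DD_sq hb (hmz J) hzJ h12 (F J)).trans (hF J)
    push_cast
    linarith

/-- the means of a product with a convergent sequence -/
lemma ces_mul {x y : ℕ → ℝ} {l g : ℝ} (h0 : ∀ j, 0 ≤ x j) (hx : Ces x l)
    (hy : Tendsto y atTop (𝓝 g)) : Ces (fun j => x j * y j) (l * g) := by
  have h1 : Ces (fun j => x j * |y j - g|) 0 := by
    have hl0 : 0 ≤ l := by
      unfold Ces at hx
      exact ge_of_tendsto' hx fun J => div_nonneg (Finset.sum_nonneg fun j _ => h0 j) (Nat.cast_nonneg J)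
    unfold Ces
    rw [Metric.tendsto_nhds]
    intro ε hε
    set η := ε / (2 * (l + 1)) with hη
    have hη0 : 0 < η := by positivity
    have h2 : ∀ᶠ j in atTop, |y j - g| ≤ η := by
      filter_upwards [(Metric.tendsto_nhds.1 hy) η hη0] with j hj
      rw [Real.dist_eq] at hj
      exact hj.le
    obtain ⟨j1, hj1⟩ := eventually_atTop.1 h2
    set C := ∑ j ∈ range j1, x j * |y j - g| with hC
    have h3 : Tendsto (fun J : ℕ => C / (J : ℝ)) atTop (𝓝 0) := tendsto_const_div_atTop_nhds_zero_nat C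
    have h4 := hx.const_mul η
    have h5 := h3.add h4
    rw [zero_add] at h5
    have h6 : η * l < ε := by
      rw [hη, div_mul_eq_mul_div, div_lt_iff₀ (by positivity)]
      nlinarith
    filter_upwards [h5.eventually_lt_const h6, eventually_ge_atTop 1] with J hJ hJ1
    have hJ0 : (0 : ℝ) < J := by exact_mod_cast hJ1
    rw [Real.dist_eq, sub_zero, abs_of_nonneg (div_nonneg (Finset.sum_nonneg fun j _ =>
      mul_nonneg (h0 j) (abs_nonneg _)) hJ0.le)]
    refine lt_of_le_of_lt ?_ hJ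
    rw [← mul_div_assoc, ← add_div]
    refine div_le_div_of_nonneg_right ?_ hJ0.le
    calc ∑ j ∈ range J, x j * |y j - g|
        ≤ ∑ j ∈ range J, ((if j < j1 then x j * |y j - g| else 0) + η * x j) := by
          refine Finset.sum_le_sum fun j _ => ?_
          have h7 := h0 j
          split_ifs with hj
          · have : 0 ≤ η * x j := by positivity
            linarith
          · have h8 := hj1 j (by omega)
            have := mul_le_mul_of_nonneg_left h8 h7
            linarith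
      _ = ∑ j ∈ (range J).filter (fun j => j < j1), x j * |y j - g| + η * ∑ j ∈ range J, x j := by
          rw [Finset.sum_add_distrib, Finset.sum_filter, Finset.mul_sum]
      _ ≤ C + η * ∑ j ∈ range J, x j := by
          refine add_le_add ?_ le_rfl
          refine Finset.sum_le_sum_of_subset_of_nonneg ?_ fun j _ _ =>
            mul_nonneg (h0 j) (abs_nonneg _)
          intro j hj
          rw [mem_filter] at hj
          exact mem_range.2 hj.2
  refine ces_squeeze (y := fun j => g * x j) ?_ h1 fun J => ?_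
  · rw [mul_comm l g]
    exact hx.mul_left g
  · rw [← Finset.sum_sub_distrib]
    refine (Finset.abs_sum_le_sum_abs _ _).trans (Finset.sum_le_sum fun j _ => ?_)
    have e : x j * y j - g * x j = x j * (y j - g) := by ring
    rw [e, abs_mul, abs_of_nonneg (h0 j)]

/-- the number of exponents -/
lemma Zn_good {b : ℕ} (hb : 2 ≤ b) (c : ℕ → ℤ) {β : ℝ} (hβ : 0 < β) {T : Finset ℕ} {t : ℕ}
    (ht : ∀ p ∈ T, p ≤ t) : Zn c b T t (NB b β t) = ((good c b β T).card : ℝ) := by
  classical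
  unfold Zn good Y
  rw [Finset.card_filter]
  push_cast
  refine Finset.sum_congr rfl fun p hp => ?_
  rw [NB_div hb hβ (ht p hp)]

theorem chain {A : ℕ} (hA64 : 64 ≤ A) : ∃ κ0 : ℝ, 0 < κ0 ∧ κ0 < 1 / 2 ∧
    ∀ (b : ℕ) (c : ℕ → ℤ), Ok b A c → ∀ m a1 a2 : ℕ, 1 ≤ a1 → a1 ≤ a2 → ∃ P : ℕ,
    ∀ (z : ℕ → ℕ → ℕ) (T : ℕ → ℕ → Finset ℕ),
    (∀ s, Monotone (z s)) → (∀ s j, z s j ≤ z (s + 1) j) → m + a2 ≤ z 0 0 →
    (∀ s j, ∀ p ∈ T s j, P ≤ p ∧ 2 * A * z s j ≤ p ∧ (z s j : ℝ) ≤ κ0 * p ∧ p < z (s + 1) j ∧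
      p < z s (j + 1)) →
    ∀ W : ℝ, (∀ s j, ∑ q ∈ T s j, Real.log q / (q : ℝ) ≤ W) →
    (∀ s, Summable (fun j => ∑ q ∈ T s j, (Real.log q) ^ 2 / (q : ℝ) ^ 2)) →
    ∀ μ : ℕ → ℝ, (∀ s, Tendsto (fun j => kap b * ∑ q ∈ T s j, Real.log q / (q : ℝ)) atTop (𝓝 (μ s))) →
    (∀ s, Tendsto (fun j => ∑ q ∈ T s j, 1 / (q : ℝ)) atTop (𝓝 0)) →
    ∀ k : ℕ, ∀ᵐ β : ℝ, (a1 : ℝ) / (b : ℝ) ^ m < β → β ≤ (a2 : ℝ) / (b : ℝ) ^ m →
      Ces (fun j => ∏ s ∈ range k, ((good c b β (T s j)).card : ℝ)) (∏ s ∈ range k, μ s) := by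
  classical
  obtain ⟨κ0, hκ0, hκ1, hU⟩ := Rq_mean A hA64
  refine ⟨κ0, hκ0, hκ1, fun b c hOk m a1 a2 h1 h12 => ?_⟩
  have hb := hOk.hb
  have hb0 : (0 : ℝ) < b := by positivity
  obtain ⟨K, hK, hRm⟩ := hU b c hOk
  obtain ⟨P1, hP1⟩ := hRm m a1 a2 h1 h12
  obtain ⟨C, hC, P2, hP2⟩ := Zn_sq hOk
  refine ⟨max (max P1 P2) 3, fun z T hzm hzs hz0 hT W hW hsum μ hμ hinv => ?_⟩
  have hW0 : 0 ≤ W := (Finset.sum_nonneg fun q _ => lg_nonneg q).trans (hW 0 0)
  have hz00 : ∀ s j, m + a2 ≤ z s j := by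
    intro s j
    induction s with
    | zero => exact hz0.trans (hzm 0 (Nat.zero_le j))
    | succ s ih => exact ih.trans (hzs s j)
  have hmz : ∀ s j, m ≤ z s j := fun s j => (Nat.le_add_right _ _).trans (hz00 s j)
  have hzss : ∀ j s s', s ≤ s' → z s j ≤ z s' j := fun j s s' h =>
    monotone_nat_of_le_succ (fun s => hzs s j) h
  set Cm := C * (6 * W + W ^ 2) with hCm
  have hCm0 : 0 ≤ Cm := by positivity
  set μ0 := ((a2 : ℝ) - a1) / (b : ℝ) ^ m with hμ0
  have hμ00 : 0 ≤ μ0 := by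
    have : (a1 : ℝ) ≤ a2 := by exact_mod_cast h12
    rw [hμ0]
    exact div_nonneg (by linarith) (by positivity)
  -- the second moments
  have hSM : ∀ k j t : ℕ, (∀ s < k, z s j ≤ t ∧ ∀ p ∈ T s j, p < t) → m ≤ t →
      Av b m a1 a2 t (fun n => (∏ s ∈ range k, Zn c b (T s j) t n) ^ 2) ≤ Cm ^ k * μ0 := by
    intro k
    induction k with
    | zero =>
      intro j t _ hmt
      have e1 : (fun n => (∏ s ∈ range 0, Zn c b (T s j) t n) ^ 2) = fun _ => (1 : ℝ) := by
        funext n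
        simp
      rw [e1, Av_one hb hmt h12, pow_zero, one_mul]
    | succ k ih =>
      intro j t ht hmt
      set s0 := z k j with hs0
      have hs0t : s0 ≤ t := (ht k (Nat.lt_succ_self k)).1
      have hlev : ∀ s < k, ∀ p ∈ T s j, p < s0 := by
        intro s hs p hp
        exact (hT s j p hp).2.2.2.1.trans_le (hzss j (s + 1) k hs)
      have e1 : (fun n => (∏ s ∈ range (k + 1), Zn c b (T s j) t n) ^ 2) = fun n =>
          (fun i => (∏ s ∈ range k, Zn c b (T s j) s0 i) ^ 2) (n / b ^ (t - s0)) *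
            Zn c b (T k j) t n ^ 2 := by
        funext n
        simp only
        rw [Finset.prod_range_succ, mul_pow]
        congr 2
        refine Finset.prod_congr rfl fun s hs => ?_
        exact Zn_level c b (fun q hq => (hlev s (mem_range.1 hs) q hq).le) hs0t n
      rw [e1, ← Av_GG hb (hmz k j) hs0t h12]
      have e2 : GG b s0 t (fun n => (fun i => (∏ s ∈ range k, Zn c b (T s j) s0 i) ^ 2)
          (n / b ^ (t - s0)) * Zn c b (T k j) t n ^ 2) = fun i =>
          (∏ s ∈ range k, Zn c b (T s j) s0 i) ^ 2 * GG b s0 t (fun n => Zn c b (T k j) t n ^ 2) i := by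
        funext i
        exact GG_mul (fun i => (∏ s ∈ range k, Zn c b (T s j) s0 i) ^ 2)
          (fun n => Zn c b (T k j) t n ^ 2) i
      rw [e2]
      have h3 : Av b m a1 a2 s0 (fun i => (∏ s ∈ range k, Zn c b (T s j) s0 i) ^ 2 *
          GG b s0 t (fun n => Zn c b (T k j) t n ^ 2) i) ≤
          Av b m a1 a2 s0 (fun i => Cm * (∏ s ∈ range k, Zn c b (T s j) s0 i) ^ 2) := by
        refine Av_mono' fun i hi => ?_
        rw [mem_Ico] at hi
        have hi1 : 1 ≤ i := by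
          have : 1 ≤ a1 * b ^ (s0 - m) := Nat.mul_pos h1 (by positivity)
          omega
        have hi2 : i ≤ b ^ (2 * s0) := by
          have h7 : a2 < b ^ a2 := Nat.lt_pow_self (by omega)
          have h8 : a2 * b ^ (s0 - m) ≤ b ^ a2 * b ^ (s0 - m) := Nat.mul_le_mul_right _ h7.le
          have h9 : b ^ a2 * b ^ (s0 - m) ≤ b ^ (2 * s0) := by
            rw [← pow_add]
            have := hz00 k j
            exact Nat.pow_le_pow_right (by omega) (by omega)
          omega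
        have h4 := hP2 s0 i t hi1 hi2 hs0t (T k j) fun p hp => by
          obtain ⟨g1, g2, _⟩ := hT k j p hp
          exact ⟨((le_max_right _ _).trans (le_max_left _ _)).trans g1, g2,
            (ht k (Nat.lt_succ_self k)).2 p hp⟩
        have h5 := err_W hb hW0 (T := T k j) (fun q hq => (le_max_right _ _).trans (hT k j q hq).1)
          (hW k j)
        have h6 : GG b s0 t (fun n => Zn c b (T k j) t n ^ 2) i ≤ Cm :=
          h4.trans (mul_le_mul_of_nonneg_left h5 hC.le)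
        rw [mul_comm Cm]
        exact mul_le_mul_of_nonneg_left h6 (sq_nonneg _)
      refine h3.trans ?_
      rw [Av_mul]
      have h8 := mul_le_mul_of_nonneg_left (ih j s0 (fun s hs => ⟨hzss j s k hs.le, hlev s hs⟩)
        (hmz k j)) hCm0
      exact h8.trans (le_of_eq (by ring))
  -- the conditional means
  have hdev : ∀ k : ℕ, ∀ᵐ β : ℝ, (a1 : ℝ) / (b : ℝ) ^ m < β → β ≤ (a2 : ℝ) / (b : ℝ) ^ m →
      Tendsto (fun j => GG b (z k j) (z k (j + 1)) (Zn c b (T k j) (z k (j + 1))) (NB b β (z k j)))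
        atTop (𝓝 (μ k)) := by
    intro k
    set R : ℕ → ℕ → ℝ := fun j i => ∑ q ∈ T k j, GG b (z k j) ⌊κ0 * (q : ℝ)⌋₊ (Rq c b κ0 K q) i with hR
    have hR0 : ∀ j i, 0 ≤ R j i := fun j i =>
      Finset.sum_nonneg fun q _ => GG_nonneg (fun n => Rq_nonneg _ _ _ _ _ _) i
    have hRmean : ∀ j, Av b m a1 a2 (z k j) (R j) ≤ ∑ q ∈ T k j, (Real.log q) ^ 2 / (q : ℝ) ^ 2 := by
      intro j
      rw [hR]
      simp only
      rw [Av_sum]
      refine Finset.sum_le_sum fun q hq => ?_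
      obtain ⟨g1, g2, g3, g4, g5⟩ := hT k j q hq
      have e1 : Av b m a1 a2 (z k j) (fun i => GG b (z k j) ⌊κ0 * (q : ℝ)⌋₊ (Rq c b κ0 K q) i) =
          Av b m a1 a2 ⌊κ0 * (q : ℝ)⌋₊ (Rq c b κ0 K q) :=
        Av_GG hb (hmz k j) (Nat.le_floor g3) h12 _
      rw [e1]
      exact hP1 q (((le_max_left _ _).trans (le_max_left _ _)).trans g1)
    have hbad : ∀ ε : ℝ, 0 < ε → ∀ᵐ β : ℝ, (a1 : ℝ) / (b : ℝ) ^ m < β →
        β ≤ (a2 : ℝ) / (b : ℝ) ^ m → ∀ᶠ j in atTop, ¬ (ε < R j (NB b β (z k j))) := by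
      intro ε hε
      refine bc' (g := fun j => (∑ q ∈ T k j, (Real.log q) ^ 2 / (q : ℝ) ^ 2) / ε) hb
        (t := fun j => z k j) (fun j => hmz k j) (fun j n => ε < R j n)
        ((hsum k).div_const ε) fun j => ?_
      exact (mark (hR0 j) hε).trans (div_le_div_of_nonneg_right (hRmean j) hε.le)
    have hall : ∀ᵐ β : ℝ, ∀ i : ℕ, (a1 : ℝ) / (b : ℝ) ^ m < β →
        β ≤ (a2 : ℝ) / (b : ℝ) ^ m → ∀ᶠ j in atTop, ¬ (1 / ((i : ℝ) + 1) < R j (NB b β (z k j))) :=
      ae_all_iff.2 fun i => hbad _ (by positivity)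
    filter_upwards [hall] with β hβ hβl hβr
    have hlim : Tendsto (fun j => GG b (z k j) (z k (j + 1)) (Zn c b (T k j) (z k (j + 1)))
        (NB b β (z k j)) - kap b * ∑ q ∈ T k j, Real.log q / (q : ℝ)) atTop (𝓝 0) := by
      rw [Metric.tendsto_nhds]
      intro ε hε
      obtain ⟨i, hi⟩ := exists_nat_one_div_lt (show 0 < ε / 2 by positivity)
      have h3 := (hinv k).const_mul K
      rw [mul_zero] at h3
      filter_upwards [hβ i hβl hβr, h3.eventually_lt_const (show 0 < ε / 2 by positivity)] with j hj1 hj2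
      push Not at hj1
      rw [Real.dist_eq, sub_zero]
      have h4 : |GG b (z k j) (z k (j + 1)) (Zn c b (T k j) (z k (j + 1)))
          (NB b β (z k j)) - kap b * ∑ q ∈ T k j, Real.log q / (q : ℝ)| ≤
          K * ∑ q ∈ T k j, 1 / (q : ℝ) + R j (NB b β (z k j)) := by
        have e1 : GG b (z k j) (z k (j + 1)) (Zn c b (T k j) (z k (j + 1))) (NB b β (z k j)) =
            ∑ q ∈ T k j, GG b (z k j) (z k (j + 1)) (fun n => Y c q (n / b ^ (z k (j + 1) - q)))
              (NB b β (z k j)) := by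
          rw [← GG_sum]
          rfl
        rw [e1, Finset.mul_sum, ← Finset.sum_sub_distrib, hR]
        simp only
        rw [Finset.mul_sum, ← Finset.sum_add_distrib]
        refine (Finset.abs_sum_le_sum_abs _ _).trans (Finset.sum_le_sum fun q hq => ?_)
        obtain ⟨g1, g2, g3, g4, g5⟩ := hT k j q hq
        refine (dev_le (K := K) hb c hκ0 hκ1 g3 g5.le _).trans (le_of_eq ?_)
        ring
      linarith
    have h5 := hlim.add (hμ k)
    simp only [sub_add_cancel, zero_add] at h5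
    exact h5
  -- the induction
  intro k
  induction k with
  | zero =>
    refine Eventually.of_forall fun β _ _ => ?_
    simp only [Finset.prod_range_zero]
    exact ces_of_tendsto tendsto_const_nhds
  | succ k ih =>
    set F : ℕ → ℕ → ℝ := fun j n => ∏ s ∈ range (k + 1), Zn c b (T s j) (z k (j + 1)) n with hF
    set Z : ℕ → ℕ := z k with hZ
    have hlev : ∀ s < k, ∀ j, ∀ p ∈ T s j, p < z k j := by
      intro s hs j p hp
      exact (hT s j p hp).2.2.2.1.trans_le (hzss j (s + 1) k hs)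
    set M2 := Cm ^ (k + 1) * μ0 with hM2
    have hM20 : 0 ≤ M2 := by positivity
    have hF2 : ∀ j, Av b m a1 a2 (Z (j + 1)) (fun n => F j n ^ 2) ≤ M2 := by
      intro j
      refine hSM (k + 1) j (Z (j + 1)) (fun s hs => ?_) (hmz k (j + 1))
      have h3 : z s j ≤ z k j := hzss j s k (by omega)
      refine ⟨h3.trans (hzm k (Nat.le_succ j)), fun p hp => ?_⟩
      rcases Nat.lt_or_ge s k with h | h
      · exact (hlev s h j p hp).trans_le (hzm k (Nat.le_succ j))
      · have : s = k := by omega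
        subst this
        exact (hT s j p hp).2.2.2.2
    set J4 : ℕ → ℕ := fun i => (i + 1) ^ 4 with hJ4
    have hJ4r : ∀ i, ((J4 i : ℕ) : ℝ) = ((i : ℝ) + 1) ^ 4 := fun i => by rw [hJ4]; push_cast; rfl
    have hbad1 : ∀ ε : ℝ, 0 < ε → ∀ᵐ β : ℝ, (a1 : ℝ) / (b : ℝ) ^ m < β →
        β ≤ (a2 : ℝ) / (b : ℝ) ^ m → ∀ᶠ i in atTop, ¬ (ε * J4 i < |SS b Z F (J4 i) (NB b β (Z (J4 i)))|) := by
      intro ε hε
      refine bc (C := M2 / ε ^ 2) hb (t := fun i => Z (J4 i)) (fun i => hmz k _)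
        (fun i n => ε * J4 i < |SS b Z F (J4 i) n|) fun i => ?_
      have hJpos : (0 : ℝ) < J4 i := by rw [hJ4r]; positivity
      refine (cheb (fun n => SS b Z F (J4 i) n) (show 0 < ε * J4 i by positivity)).trans ?_
      have h3 := SS_sq' (b := b) (z := Z) (F := F) (a1 := a1) (a2 := a2) hb (hzm k) (hmz k 0) h12 hF2 (J4 i)
      calc _ ≤ (J4 i : ℝ) * M2 / (ε * J4 i) ^ 2 := div_le_div_of_nonneg_right h3 (by positivity)
        _ = M2 / ε ^ 2 / (J4 i : ℝ) := by field_simp
        _ ≤ M2 / ε ^ 2 / ((i : ℝ) + 1) ^ 2 := by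
            rw [hJ4r]
            refine div_le_div_of_nonneg_left (by positivity) (by positivity) ?_
            exact pow_le_pow_right₀ (by linarith [(Nat.cast_nonneg i : (0 : ℝ) ≤ i)]) (by norm_num)
    have hall1 : ∀ᵐ β : ℝ, ∀ i' : ℕ, (a1 : ℝ) / (b : ℝ) ^ m < β →
        β ≤ (a2 : ℝ) / (b : ℝ) ^ m → ∀ᶠ i in atTop,
          ¬ (1 / ((i' : ℝ) + 1) * J4 i < |SS b Z F (J4 i) (NB b β (Z (J4 i)))|) :=
      ae_all_iff.2 fun i' => hbad1 _ (by positivity)
    filter_upwards [ih, hdev k, hall1] with β hβ1 hβ2 hβ3 hβl hβr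
    have hβ : 0 < β := lt_of_le_of_lt (by positivity) hβl
    set Pj : ℕ → ℝ := fun j => ∏ s ∈ range k, ((good c b β (T s j)).card : ℝ) with hPj
    set Gj : ℕ → ℝ := fun j => GG b (Z j) (Z (j + 1)) (Zn c b (T k j) (Z (j + 1))) (NB b β (Z j)) with hGj
    have hPj0 : ∀ j, 0 ≤ Pj j := fun j => Finset.prod_nonneg fun s _ => Nat.cast_nonneg _
    have hprod : Ces (fun j => Pj j * Gj j) ((∏ s ∈ range k, μ s) * μ k) :=
      ces_mul hPj0 (hβ1 hβl hβr) (hβ2 hβl hβr)
    have hFβ : ∀ j, F j (NB b β (Z (j + 1))) =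
        ∏ s ∈ range (k + 1), ((good c b β (T s j)).card : ℝ) := by
      intro j
      rw [hF]
      refine Finset.prod_congr rfl fun s hs => ?_
      rw [mem_range] at hs
      refine Zn_good hb c hβ fun p hp => ?_
      rcases Nat.lt_or_ge s k with h | h
      · exact ((hlev s h j p hp).trans_le (hzm k (Nat.le_succ j))).le
      · have : s = k := by omega
        subst this
        exact (hT s j p hp).2.2.2.2.le
    have hGF : ∀ j, GG b (Z j) (Z (j + 1)) (F j) (NB b β (Z j)) = Pj j * Gj j := by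
      intro j
      have e1 : F j = fun n => (fun i => ∏ s ∈ range k, Zn c b (T s j) (Z j) i) (n / b ^ (Z (j + 1) - Z j)) *
          Zn c b (T k j) (Z (j + 1)) n := by
        funext n
        rw [hF]
        simp only
        rw [Finset.prod_range_succ]
        congr 1
        refine Finset.prod_congr rfl fun s hs => ?_
        exact Zn_level c b (fun q hq => (hlev s (mem_range.1 hs) j q hq).le) (hzm k (Nat.le_succ j)) n
      have e2 := GG_mul (b := b) (s := Z j) (t := Z (j + 1))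
        (fun i => ∏ s ∈ range k, Zn c b (T s j) (Z j) i) (Zn c b (T k j) (Z (j + 1))) (NB b β (Z j))
      rw [e1]
      refine e2.trans ?_
      rw [hPj, hGj]
      simp only
      congr 1
      refine Finset.prod_congr rfl fun s hs => ?_
      exact Zn_good hb c hβ fun p hp => (hlev s (mem_range.1 hs) j p hp).le
    have hS : ∀ J, SS b Z F J (NB b β (Z J)) = ∑ j ∈ range J, (F j (NB b β (Z (j + 1))) -
        Pj j * Gj j) := by
      intro J
      unfold SS DD
      refine Finset.sum_congr rfl fun j hj => ?_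
      rw [mem_range] at hj
      rw [NB_div hb hβ (hzm k (by omega : j + 1 ≤ J)), NB_div hb hβ (hzm k (Nat.le_succ j)), ← hGF j]
    have hJ4t : Tendsto J4 atTop atTop := by
      refine tendsto_atTop_mono (fun i => ?_) tendsto_id
      simp only [id, hJ4]
      calc i ≤ i + 1 := Nat.le_succ i
        _ = (i + 1) ^ 1 := (pow_one _).symm
        _ ≤ (i + 1) ^ 4 := Nat.pow_le_pow_right (by omega) (by norm_num)
    have hSS0 : Tendsto (fun i => SS b Z F (J4 i) (NB b β (Z (J4 i))) / ((J4 i : ℕ) : ℝ)) atTop (𝓝 0) := by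
      rw [Metric.tendsto_nhds]
      intro ε hε
      obtain ⟨i', hi'⟩ := exists_nat_one_div_lt hε
      filter_upwards [hβ3 i' hβl hβr] with i hi
      have hJpos : (0 : ℝ) < J4 i := by rw [hJ4r]; positivity
      push Not at hi
      rw [Real.dist_eq, sub_zero, abs_div, abs_of_pos hJpos, div_lt_iff₀ hJpos]
      exact lt_of_le_of_lt hi (mul_lt_mul_of_pos_right hi' hJpos)
    have h6 : Ces (fun j => F j (NB b β (Z (j + 1)))) ((∏ s ∈ range k, μ s) * μ k) := by
      refine ces_quartic (fun j => ?_) ?_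
      · rw [hFβ]
        exact Finset.prod_nonneg fun s _ => Nat.cast_nonneg _
      · have h7 := hSS0.add (Filter.Tendsto.comp hprod hJ4t)
        rw [zero_add] at h7
        refine h7.congr fun i => ?_
        simp only [Function.comp]
        rw [hS, Finset.sum_sub_distrib, sub_div, sub_add_cancel]
    rw [Finset.prod_range_succ]
    exact h6.congr hFβ

end Run7.h854.CO
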