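import Mathlib

set_option autoImplicit false

/-!
# Sums of `log p / p` over the elements of a set in multiplicative windows
-/

namespace Run7.h854.CO

open Finset Filter Topology

/-- the sum of the logarithms of the elements up to `x` -/
noncomputable def th (S : Set ℕ) (x : ℝ) : ℝ :=
  ∑ p ∈ Icc 1 ⌊x⌋₊, S.indicator (fun p : ℕ => Real.log p) p

/-- the elements of `S` in `(exp x, exp (x + L)]` -/
noncomputable def gS (S : Set ℕ) (x L : ℝ) : ℝ :=
  ∑ p ∈ Ioc ⌊Real.exp x⌋₊ ⌊Real.exp (x + L)⌋₊, S.indicator (fun p : ℕ => Real.log p / p) p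

lemma ind_log_nonneg (S : Set ℕ) (p : ℕ) : 0 ≤ S.indicator (fun p : ℕ => Real.log p) p :=
  Set.indicator_nonneg (fun p _ => Real.log_natCast_nonneg p) p

lemma ind_lg_nonneg (S : Set ℕ) (p : ℕ) : 0 ≤ S.indicator (fun p : ℕ => Real.log p / (p : ℝ)) p :=
  Set.indicator_nonneg (fun p _ => div_nonneg (Real.log_natCast_nonneg p) (Nat.cast_nonneg p)) p

lemma gS_nonneg (S : Set ℕ) (x L : ℝ) : 0 ≤ gS S x L := Finset.sum_nonneg fun p _ => ind_lg_nonneg S p

lemma th_sub (S : Set ℕ) {x y : ℝ} (hxy : x ≤ y) :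
    th S y - th S x = ∑ p ∈ Ioc ⌊x⌋₊ ⌊y⌋₊, S.indicator (fun p : ℕ => Real.log p) p := by
  have h1 : ⌊x⌋₊ ≤ ⌊y⌋₊ := Nat.floor_le_floor hxy
  unfold th
  have e : Icc 1 ⌊y⌋₊ = Icc 1 ⌊x⌋₊ ∪ Ioc ⌊x⌋₊ ⌊y⌋₊ := by
    ext p
    simp only [mem_Icc, mem_union, mem_Ioc]
    omega
  have hd : Disjoint (Icc 1 ⌊x⌋₊) (Ioc ⌊x⌋₊ ⌊y⌋₊) := by
    rw [Finset.disjoint_left]
    intro p hp hp'
    rw [mem_Icc] at hp
    rw [mem_Ioc] at hp'
    omega
  rw [e, Finset.sum_union hd, add_sub_cancel_left]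

lemma mem_win_exp {x y : ℝ} {p : ℕ} (hp : p ∈ Ioc ⌊Real.exp x⌋₊ ⌊Real.exp y⌋₊) :
    Real.exp x < p ∧ (p : ℝ) ≤ Real.exp y := by
  rw [mem_Ioc] at hp
  refine ⟨?_, ?_⟩
  · exact (Nat.floor_lt (Real.exp_pos x).le).1 hp.1
  · exact (Nat.le_floor_iff (Real.exp_pos y).le).1 hp.2

lemma gS_le (S : Set ℕ) {x L : ℝ} (hL : 0 ≤ L) :
    gS S x L ≤ (th S (Real.exp (x + L)) - th S (Real.exp x)) / Real.exp x := by
  rw [th_sub S (Real.exp_le_exp.2 (by linarith)), Finset.sum_div]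
  unfold gS
  refine Finset.sum_le_sum fun p hp => ?_
  obtain ⟨h1, h2⟩ := mem_win_exp hp
  by_cases hpS : p ∈ S
  · rw [Set.indicator_of_mem hpS, Set.indicator_of_mem hpS]
    exact div_le_div_of_nonneg_left (Real.log_natCast_nonneg p) (Real.exp_pos x) h1.le
  · rw [Set.indicator_of_notMem hpS, Set.indicator_of_notMem hpS]
    simp

lemma gS_ge (S : Set ℕ) {x L : ℝ} (hL : 0 ≤ L) :
    (th S (Real.exp (x + L)) - th S (Real.exp x)) / Real.exp (x + L) ≤ gS S x L := by
  rw [th_sub S (Real.exp_le_exp.2 (by linarith)), Finset.sum_div]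
  unfold gS
  refine Finset.sum_le_sum fun p hp => ?_
  obtain ⟨h1, h2⟩ := mem_win_exp hp
  have hp0 : (0 : ℝ) < p := (Real.exp_pos x).trans h1
  by_cases hpS : p ∈ S
  · rw [Set.indicator_of_mem hpS, Set.indicator_of_mem hpS]
    exact div_le_div_of_nonneg_left (Real.log_natCast_nonneg p) hp0 h2
  · rw [Set.indicator_of_notMem hpS, Set.indicator_of_notMem hpS]
    simp

lemma gS_add (S : Set ℕ) {x L L' : ℝ} (hL : 0 ≤ L) (hL' : 0 ≤ L') :
    gS S x (L + L') = gS S x L + gS S (x + L) L' := by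
  unfold gS
  have h1 : ⌊Real.exp x⌋₊ ≤ ⌊Real.exp (x + L)⌋₊ := Nat.floor_le_floor (Real.exp_le_exp.2 (by linarith))
  have h2 : ⌊Real.exp (x + L)⌋₊ ≤ ⌊Real.exp (x + L + L')⌋₊ :=
    Nat.floor_le_floor (Real.exp_le_exp.2 (by linarith))
  have e : Ioc ⌊Real.exp x⌋₊ ⌊Real.exp (x + (L + L'))⌋₊ =
      Ioc ⌊Real.exp x⌋₊ ⌊Real.exp (x + L)⌋₊ ∪ Ioc ⌊Real.exp (x + L)⌋₊ ⌊Real.exp (x + L + L')⌋₊ := by
    rw [← add_assoc]
    ext p
    simp only [mem_union, mem_Ioc]
    omega
  have hd : Disjoint (Ioc ⌊Real.exp x⌋₊ ⌊Real.exp (x + L)⌋₊)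
      (Ioc ⌊Real.exp (x + L)⌋₊ ⌊Real.exp (x + L + L')⌋₊) := by
    rw [Finset.disjoint_left]
    intro p hp hp'
    rw [mem_Ioc] at hp hp'
    omega
  rw [e, Finset.sum_union hd]

/-- the asymptotic density of the logarithms -/
def HasD (S : Set ℕ) (δ : ℝ) : Prop := Tendsto (fun x : ℝ => th S x / x) atTop (𝓝 δ)

lemma HasD.nonneg {S : Set ℕ} {δ : ℝ} (h : HasD S δ) : 0 ≤ δ := by
  refine ge_of_tendsto h ?_
  filter_upwards [eventually_ge_atTop 0] with x hx
  exact div_nonneg (Finset.sum_nonneg fun p _ => ind_log_nonneg S p) hx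

lemma u_tendsto {S : Set ℕ} {δ : ℝ} (h : HasD S δ) (η : ℝ) :
    Tendsto (fun x : ℝ => (th S (Real.exp (x + η)) - th S (Real.exp x)) / Real.exp x) atTop
      (𝓝 (δ * (Real.exp η - 1))) := by
  have h1 : Tendsto (fun x : ℝ => th S (Real.exp x) / Real.exp x) atTop (𝓝 δ) :=
    h.comp Real.tendsto_exp_atTop
  have h2 : Tendsto (fun x : ℝ => th S (Real.exp (x + η)) / Real.exp (x + η)) atTop (𝓝 δ) :=
    h1.comp (tendsto_atTop_add_const_right _ _ tendsto_id)
  have h3 := (h2.mul_const (Real.exp η)).sub h1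
  have e : δ * Real.exp η - δ = δ * (Real.exp η - 1) := by ring
  rw [e] at h3
  refine h3.congr fun x => ?_
  have hx : Real.exp x ≠ 0 := (Real.exp_pos x).ne'
  have hη : Real.exp η ≠ 0 := (Real.exp_pos η).ne'
  rw [Real.exp_add]
  field_simp

lemma gS_up {S : Set ℕ} {δ : ℝ} (h : HasD S δ) {η : ℝ} (hη : 0 ≤ η) {ε : ℝ} (hε : 0 < ε) (n : ℕ) :
    ∀ᶠ x : ℝ in atTop, gS S x (n * η) ≤ n * (δ * (η * Real.exp η) + ε) := by
  have hδ := h.nonneg
  have h1 : ∀ᶠ x : ℝ in atTop, gS S x η ≤ δ * (η * Real.exp η) + ε := by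
    have h2 : δ * (Real.exp η - 1) < δ * (η * Real.exp η) + ε := by
      have h3 : Real.exp η - 1 ≤ η * Real.exp η := by
        have h4 := Real.add_one_le_exp (-η)
        have h5 : Real.exp η * (1 - η) ≤ Real.exp η * Real.exp (-η) :=
          mul_le_mul_of_nonneg_left (by linarith) (Real.exp_pos η).le
        rw [← Real.exp_add, add_neg_cancel, Real.exp_zero] at h5
        linarith
      have := mul_le_mul_of_nonneg_left h3 hδ
      linarith
    filter_upwards [(u_tendsto h η).eventually_lt_const h2] with x hx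
    exact (gS_le S hη).trans hx.le
  induction n with
  | zero =>
    refine Eventually.of_forall fun x => ?_
    unfold gS
    simp
  | succ n ih =>
    have h2 : Tendsto (fun x : ℝ => x + n * η) atTop atTop :=
      tendsto_atTop_add_const_right _ _ tendsto_id
    filter_upwards [ih, h2.eventually h1] with x hx hx'
    have e : ((n + 1 : ℕ) : ℝ) * η = n * η + η := by push_cast; ring
    rw [e, gS_add S (by positivity) hη]
    push_cast
    linarith

lemma gS_low {S : Set ℕ} {δ : ℝ} (h : HasD S δ) {η : ℝ} (hη : 0 ≤ η) {ε : ℝ} (hε : 0 < ε) (n : ℕ) :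
    ∀ᶠ x : ℝ in atTop, n * (δ * (η * Real.exp (-η)) - ε) ≤ gS S x (n * η) := by
  have hδ := h.nonneg
  have h1 : ∀ᶠ x : ℝ in atTop, δ * (η * Real.exp (-η)) - ε ≤ gS S x η := by
    have h0 := (u_tendsto h η).mul_const (Real.exp (-η))
    have h2 : δ * (η * Real.exp (-η)) - ε < δ * (Real.exp η - 1) * Real.exp (-η) := by
      have h3 : η ≤ Real.exp η - 1 := by
        have h4 := Real.add_one_le_exp η
        linarith
      have h5 := mul_le_mul_of_nonneg_right (mul_le_mul_of_nonneg_left h3 hδ) (Real.exp_pos (-η)).le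
      linarith
    filter_upwards [h0.eventually_const_lt h2] with x hx
    refine hx.le.trans ?_
    refine le_trans (le_of_eq ?_) (gS_ge S hη)
    rw [Real.exp_add x η, Real.exp_neg]
    have hx : Real.exp x ≠ 0 := (Real.exp_pos x).ne'
    have hη : Real.exp η ≠ 0 := (Real.exp_pos η).ne'
    field_simp
  induction n with
  | zero =>
    refine Eventually.of_forall fun x => ?_
    unfold gS
    simp
  | succ n ih =>
    have h2 : Tendsto (fun x : ℝ => x + n * η) atTop atTop :=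
      tendsto_atTop_add_const_right _ _ tendsto_id
    filter_upwards [ih, h2.eventually h1] with x hx hx'
    have e : ((n + 1 : ℕ) : ℝ) * η = n * η + η := by push_cast; ring
    rw [e, gS_add S (by positivity) hη]
    push_cast
    linarith

/-- the sum over a window -/
theorem gS_tendsto {S : Set ℕ} {δ : ℝ} (h : HasD S δ) {L : ℝ} (hL : 0 ≤ L) :
    Tendsto (fun x : ℝ => gS S x L) atTop (𝓝 (δ * L)) := by
  have hδ := h.nonneg
  rw [Metric.tendsto_nhds]
  intro ε hε
  have h1 : Tendsto (fun n : ℕ => L / ((n : ℝ) + 1)) atTop (𝓝 0) :=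
    tendsto_const_div_atTop_nhds_zero_nat L |>.comp (tendsto_add_atTop_nat 1) |>.congr fun n => by
      simp
  have h2 : Tendsto (fun n : ℕ => δ * (L * Real.exp (L / ((n : ℝ) + 1)))) atTop (𝓝 (δ * L)) := by
    have h3 := ((Real.continuous_exp.tendsto 0).comp h1).const_mul L
    rw [Real.exp_zero, mul_one] at h3
    exact h3.const_mul δ
  have h2' : Tendsto (fun n : ℕ => δ * (L * Real.exp (-(L / ((n : ℝ) + 1))))) atTop (𝓝 (δ * L)) := by
    have h4 := h1.neg
    rw [neg_zero] at h4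
    have h3 := ((Real.continuous_exp.tendsto 0).comp h4).const_mul L
    rw [Real.exp_zero, mul_one] at h3
    exact h3.const_mul δ
  obtain ⟨n, hn1, hn2⟩ := ((h2.eventually_lt_const (show δ * L < δ * L + ε / 2 by linarith)).and
    (h2'.eventually_const_lt (show δ * L - ε / 2 < δ * L by linarith))).exists
  set η := L / ((n : ℝ) + 1) with hη
  have hη0 : 0 ≤ η := by positivity
  have hn0 : (0 : ℝ) < (n : ℝ) + 1 := by positivity
  have hL' : ((n + 1 : ℕ) : ℝ) * η = L := by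
    rw [hη]
    push_cast
    field_simp
  have hε' : 0 < ε / (4 * ((n : ℝ) + 1)) := by positivity
  filter_upwards [gS_up h hη0 hε' (n + 1), gS_low h hη0 hε' (n + 1)] with x hx1 hx2
  rw [hL'] at hx1 hx2
  have e1 : ((n + 1 : ℕ) : ℝ) * (δ * (η * Real.exp η) + ε / (4 * ((n : ℝ) + 1))) =
      δ * (L * Real.exp η) + ε / 4 := by
    rw [← hL']
    push_cast
    field_simp
  have e2 : ((n + 1 : ℕ) : ℝ) * (δ * (η * Real.exp (-η)) - ε / (4 * ((n : ℝ) + 1))) =
      δ * (L * Real.exp (-η)) - ε / 4 := by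
    rw [← hL']
    push_cast
    field_simp
  rw [e1] at hx1
  rw [e2] at hx2
  rw [Real.dist_eq, abs_lt]
  constructor <;> linarith

/-- a bound for the sum over a window -/
lemma gS_bound {S : Set ℕ} (hS : ∀ p ∈ S, p.Prime) (x : ℝ) {L : ℝ} (hL : 0 ≤ L) :
    gS S x L ≤ Real.log 4 * Real.exp L := by
  have h1 := gS_le S (x := x) hL
  have h0 : 0 ≤ th S (Real.exp x) := Finset.sum_nonneg fun p _ => ind_log_nonneg S p
  have h2 : th S (Real.exp (x + L)) ≤ Real.log 4 * Real.exp (x + L) := by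
    refine le_trans ?_ (Chebyshev.theta_le_log4_mul_x (Real.exp_pos (x + L)).le)
    unfold th Chebyshev.theta
    rw [Finset.sum_filter]
    have e : Icc 1 ⌊Real.exp (x + L)⌋₊ = Ioc 0 ⌊Real.exp (x + L)⌋₊ := by
      ext p
      simp only [mem_Icc, mem_Ioc]
      omega
    rw [e]
    refine Finset.sum_le_sum fun p _ => ?_
    by_cases hpS : p ∈ S
    · rw [Set.indicator_of_mem hpS, if_pos (hS p hpS)]
    · rw [Set.indicator_of_notMem hpS]
      split_ifs
      · exact Real.log_natCast_nonneg p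
      · exact le_rfl
  refine h1.trans ?_
  rw [div_le_iff₀ (Real.exp_pos x)]
  have e : Real.log 4 * Real.exp L * Real.exp x = Real.log 4 * Real.exp (x + L) := by
    rw [Real.exp_add]
    ring
  rw [e]
  linarith

end Run7.h854.CO
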