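import Mathlib
import Pool.Agent.Run7.h854.CO.Chain
import Pool.Agent.Run7.h854.CO.Pnt

set_option autoImplicit false

/-!
# Products of the numbers of exponents in distant windows of a multiplicative grid
-/

namespace Run7.h854.CO

open Finset Filter Topology MeasureTheory
open Pool.Agent.H305R2 (roughPart)
open Pool.Agent.N176.OW (cell kap S_FM)
open Pool.Agent.N176.GP (NB NB_spec NB_div)
open Pool.Agent.N176.SH
open Run7.h854.PO Run7.h854.PQ Run7.h854.LB

open Classical in
/-- the elements of `S` in `(exp (g h), exp ((g + 1) h)]` -/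
noncomputable def Wd (S : Set ℕ) (h : ℝ) (g : ℕ) : Finset ℕ :=
  (Ioc ⌊Real.exp (g * h)⌋₊ ⌊Real.exp (g * h + h)⌋₊).filter (fun p => p ∈ S)

lemma mem_Wd {S : Set ℕ} {h : ℝ} {g p : ℕ} :
    p ∈ Wd S h g ↔ p ∈ S ∧ Real.exp (g * h) < p ∧ (p : ℝ) ≤ Real.exp (g * h + h) := by
  classical
  unfold Wd
  rw [mem_filter, mem_Ioc, Nat.floor_lt (Real.exp_pos _).le, Nat.le_floor_iff (Real.exp_pos _).le]
  tauto

lemma sum_Wd (S : Set ℕ) (h : ℝ) (g : ℕ) :
    ∑ q ∈ Wd S h g, Real.log q / (q : ℝ) = gS S (g * h) h := by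
  classical
  unfold Wd gS
  rw [Finset.sum_filter]
  refine Finset.sum_congr rfl fun p _ => ?_
  rw [Set.indicator_apply]

lemma summable_lg2 : Summable (fun q : ℕ => (Real.log q) ^ 2 / (q : ℝ) ^ 2) := by
  have h1 : Summable (fun q : ℕ => 16 * (1 / (q : ℝ) ^ (3 / 2 : ℝ))) :=
    (Real.summable_one_div_nat_rpow.2 (by norm_num)).mul_left 16
  refine Summable.of_nonneg_of_le (fun q => by positivity) (fun q => ?_) h1
  rcases Nat.eq_zero_or_pos q with h | h
  · subst h
    simp
  · have hq : (0 : ℝ) < q := by exact_mod_cast h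
    have h2 := Real.log_le_rpow_div hq.le (show (0 : ℝ) < 1 / 4 by norm_num)
    have h3 : 0 ≤ Real.log q := Real.log_natCast_nonneg q
    have h4 : (Real.log q) ^ 2 ≤ 16 * (q : ℝ) ^ (1 / 2 : ℝ) := by
      calc (Real.log q) ^ 2 ≤ ((q : ℝ) ^ (1 / 4 : ℝ) / (1 / 4)) ^ 2 := pow_le_pow_left₀ h3 h2 2
        _ = 16 * ((q : ℝ) ^ (1 / 4 : ℝ)) ^ 2 := by ring
        _ = _ := by
            rw [← Real.rpow_natCast, ← Real.rpow_mul hq.le]
            norm_num
    rw [mul_one_div, div_le_div_iff₀ (by positivity) (by positivity)]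
    calc (Real.log q) ^ 2 * (q : ℝ) ^ (3 / 2 : ℝ) ≤
        16 * (q : ℝ) ^ (1 / 2 : ℝ) * (q : ℝ) ^ (3 / 2 : ℝ) :=
          mul_le_mul_of_nonneg_right h4 (by positivity)
      _ = 16 * (q : ℝ) ^ 2 := by
          rw [mul_assoc, ← Real.rpow_add hq]
          norm_num

lemma summable_windows {T : ℕ → Finset ℕ} (hT : ∀ i j, i ≠ j → Disjoint (T i) (T j)) {f : ℕ → ℝ}
    (hf0 : ∀ q, 0 ≤ f q) (hf : Summable f) : Summable (fun j => ∑ q ∈ T j, f q) := by
  refine summable_of_sum_range_le (c := ∑' q, f q) (fun j => Finset.sum_nonneg fun q _ => hf0 q)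
    fun J => ?_
  rw [← Finset.sum_biUnion fun i _ j _ hij => hT i j hij]
  exact hf.sum_le_tsum _ fun q _ => hf0 q

lemma Wd_lt {S : Set ℕ} {h : ℝ} (hh : 0 < h) {Kc D : ℕ} (hKc : 1 ≤ Kc)
    (hD : Real.log (2 * Kc) ≤ ((D : ℝ) - 1) * h) {g g' p : ℕ} (hg : g + D ≤ g')
    (hp : p ∈ Wd S h g) : p < ⌊Real.exp (g' * h) / Kc⌋₊ := by
  rw [mem_Wd] at hp
  obtain ⟨_, h1, h2⟩ := hp
  have hK0 : (0 : ℝ) < Kc := by exact_mod_cast hKc
  have hgr : (g : ℝ) + D ≤ g' := by exact_mod_cast hg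
  have h3 : (g : ℝ) * h + h + Real.log (2 * Kc) ≤ g' * h := by nlinarith
  have h4 : Real.exp (g * h + h) * (2 * Kc) ≤ Real.exp (g' * h) := by
    calc Real.exp (g * h + h) * (2 * Kc) = Real.exp (g * h + h) * Real.exp (Real.log (2 * Kc)) := by
          rw [Real.exp_log (by positivity)]
      _ = Real.exp (g * h + h + Real.log (2 * Kc)) := (Real.exp_add _ _).symm
      _ ≤ _ := Real.exp_le_exp.2 h3
  have h5 : 2 * Real.exp (g * h + h) ≤ Real.exp (g' * h) / Kc := by
    rw [le_div_iff₀ hK0]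
    linarith
  have h6 : 1 ≤ Real.exp (g * h + h) := Real.one_le_exp (by positivity)
  have h7 : ((p + 1 : ℕ) : ℝ) ≤ Real.exp (g' * h) / Kc := by
    push_cast
    linarith
  exact Nat.le_floor h7

lemma Wd_disj (S : Set ℕ) {h : ℝ} (hh : 0 < h) {g g' : ℕ} (hg : g ≠ g') :
    Disjoint (Wd S h g) (Wd S h g') := by
  rw [Finset.disjoint_left]
  intro p hp hp'
  rw [mem_Wd] at hp hp'
  rcases lt_or_gt_of_ne hg with h1 | h1
  · have h2 : (g : ℝ) + 1 ≤ g' := by exact_mod_cast h1
    have h3 : (g : ℝ) * h + h ≤ g' * h := by nlinarith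
    linarith [Real.exp_le_exp.2 h3, hp.2.2, hp'.2.1]
  · have h2 : (g' : ℝ) + 1 ≤ g := by exact_mod_cast h1
    have h3 : (g' : ℝ) * h + h ≤ g * h := by nlinarith
    linarith [Real.exp_le_exp.2 h3, hp'.2.2, hp.2.1]

theorem grid_cor {A : ℕ} (hA64 : 64 ≤ A) : ∃ Kc : ℕ, 1 ≤ Kc ∧
    ∀ (b : ℕ) (c : ℕ → ℤ), Ok b A c → ∀ (S : ℕ → Set ℕ) (δ : ℕ → ℝ), (∀ i, ∀ p ∈ S i, p.Prime) →
    (∀ i, HasD (S i) (δ i)) → ∀ h : ℝ, 0 < h → ∀ D : ℕ, 1 ≤ D →
    Real.log (2 * Kc) ≤ ((D : ℝ) - 1) * h → ∀ d : ℕ → ℕ, (∀ s, d s + D ≤ d (s + 1)) →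
    ∀ k : ℕ, ∀ᵐ β : ℝ, 0 < β →
      Ces (fun j => ∏ s ∈ range k, ((good c b β (Wd (S s) h (j + d s))).card : ℝ))
        (∏ s ∈ range k, kap b * (δ s * h)) := by
  classical
  obtain ⟨κ0, hκ0, hκ1, hch⟩ := chain hA64
  obtain ⟨Kc, hKc⟩ := exists_nat_ge (2 * A + 1 / κ0)
  have hKcA : 2 * A ≤ Kc := by
    have : ((2 * A : ℕ) : ℝ) ≤ Kc := by
      push_cast
      have : 0 < 1 / κ0 := by positivity
      linarith
    exact_mod_cast this
  have hKcκ : 1 ≤ κ0 * Kc := by
    have h1 : 1 / κ0 ≤ Kc := by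
      have : (0 : ℝ) ≤ A := Nat.cast_nonneg A
      linarith
    rw [div_le_iff₀ hκ0] at h1
    linarith
  have hKc1 : 1 ≤ Kc := by omega
  have hK0 : (0 : ℝ) < Kc := by exact_mod_cast hKc1
  refine ⟨Kc, hKc1, fun b c hOk S δ hSp hδ h hh D hD1 hD d hd k => ?_⟩
  have hb := hOk.hb
  have hb0 : (0 : ℝ) < b := by positivity
  have hdm : ∀ s, d s ≤ d (s + 1) := fun s => (Nat.le_add_right _ _).trans (hd s)
  have hDr : (1 : ℝ) ≤ D := by exact_mod_cast hD1
  -- one interval
  have hone : ∀ m a1 a2 : ℕ, 1 ≤ a1 → a1 ≤ a2 →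
      ∀ᵐ β : ℝ, (a1 : ℝ) / (b : ℝ) ^ m < β → β ≤ (a2 : ℝ) / (b : ℝ) ^ m →
      Ces (fun j => ∏ s ∈ range k, ((good c b β (Wd (S s) h (j + d s))).card : ℝ))
        (∏ s ∈ range k, kap b * (δ s * h)) := by
    intro m a1 a2 h1 h12
    obtain ⟨P, hP⟩ := hch b c hOk m a1 a2 h1 h12
    have hexp : Tendsto (fun n : ℕ => Real.exp (n * h)) atTop atTop :=
      Real.tendsto_exp_atTop.comp (tendsto_natCast_atTop_atTop.atTop_mul_const hh)
    obtain ⟨N0, hN1, hN2⟩ := ((hexp.eventually_ge_atTop (P : ℝ)).and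
      (hexp.eventually_ge_atTop ((Kc : ℝ) * (m + a2)))).exists
    have hres : ∀ r : ℕ, ∀ᵐ β : ℝ, (a1 : ℝ) / (b : ℝ) ^ m < β → β ≤ (a2 : ℝ) / (b : ℝ) ^ m →
        Ces (fun j => ∏ s ∈ range k, ((good c b β (Wd (S s) h (r + D * j + N0 + d s))).card : ℝ))
          (∏ s ∈ range k, kap b * (δ s * h)) := by
      intro r
      set z : ℕ → ℕ → ℕ := fun s j => ⌊Real.exp ((r + D * j + N0 + d s : ℕ) * h) / Kc⌋₊ with hz
      set T : ℕ → ℕ → Finset ℕ := fun s j => Wd (S s) h (r + D * j + N0 + d s) with hT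
      have hzmono : ∀ g g' : ℕ, g ≤ g' → ⌊Real.exp (g * h) / Kc⌋₊ ≤ ⌊Real.exp (g' * h) / Kc⌋₊ := by
        intro g g' hg
        refine Nat.floor_le_floor (div_le_div_of_nonneg_right (Real.exp_le_exp.2 ?_) hK0.le)
        exact mul_le_mul_of_nonneg_right (by exact_mod_cast hg) hh.le
      have hfin := hP z T (fun s i j hij => ?_) (fun s j => ?_) ?_ (fun s j p hp => ?_)
        (Real.log 4 * Real.exp h) (fun s j => ?_) (fun s => ?_) (fun s => kap b * (δ s * h))
        (fun s => ?_) (fun s => ?_) k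
      · exact hfin
      · exact hzmono _ _ (by have := Nat.mul_le_mul_left D hij; omega)
      · exact hzmono _ _ (by have := hdm s; omega)
      · rw [hz]
        refine Nat.le_floor ?_
        rw [le_div_iff₀ hK0]
        push_cast
        have h2 : Real.exp (N0 * h) ≤ Real.exp ((r + D * 0 + N0 + d 0 : ℝ) * h) := by
          apply Real.exp_le_exp.2
          refine mul_le_mul_of_nonneg_right ?_ hh.le
          have : (0 : ℝ) ≤ r := Nat.cast_nonneg r
          have : (0 : ℝ) ≤ d 0 := Nat.cast_nonneg _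
          linarith
        push_cast at h2
        linarith
      · have hp' := hp
        rw [hT] at hp
        simp only at hp
        rw [mem_Wd] at hp
        obtain ⟨g1, g2, g3⟩ := hp
        have h2 : Real.exp (N0 * h) ≤ Real.exp ((r + D * j + N0 + d s : ℕ) * h) := by
          apply Real.exp_le_exp.2
          refine mul_le_mul_of_nonneg_right ?_ hh.le
          exact_mod_cast (by omega : N0 ≤ r + D * j + N0 + d s)
        have h3 : ((z s j : ℕ) : ℝ) ≤ Real.exp ((r + D * j + N0 + d s : ℕ) * h) / Kc :=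
          Nat.floor_le (by positivity)
        have h3' : ((z s j : ℕ) : ℝ) * Kc ≤ Real.exp ((r + D * j + N0 + d s : ℕ) * h) := by
          rwa [le_div_iff₀ hK0] at h3
        have hz0 : (0 : ℝ) ≤ (z s j : ℕ) := Nat.cast_nonneg _
        refine ⟨?_, ?_, ?_, ?_, ?_⟩
        · have : (P : ℝ) ≤ p := by linarith
          exact_mod_cast this
        · have h4 : (2 * A : ℝ) ≤ Kc := by exact_mod_cast hKcA
          have h5 : ((2 * A * z s j : ℕ) : ℝ) ≤ p := by
            push_cast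
            have h6 := mul_le_mul_of_nonneg_right h4 hz0
            linarith
          exact_mod_cast h5
        · have h4 : (z s j : ℝ) * 1 ≤ (z s j : ℝ) * (κ0 * Kc) := mul_le_mul_of_nonneg_left hKcκ hz0
          have h5 : κ0 * ((z s j : ℝ) * Kc) ≤ κ0 * p := mul_le_mul_of_nonneg_left (by linarith) hκ0.le
          linarith
        · exact Wd_lt hh hKc1 hD (by have := hd s; omega) hp'
        · refine Wd_lt hh hKc1 hD ?_ hp'
          have : D * (j + 1) = D * j + D := by ring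
          omega
      · rw [hT]
        simp only
        rw [sum_Wd]
        exact gS_bound (hSp s) _ hh.le
      · refine summable_windows (fun i j hij => Wd_disj _ hh fun he => hij ?_) (fun q => by positivity)
          summable_lg2
        have h4 : D * i = D * j := by omega
        exact Nat.eq_of_mul_eq_mul_left (by omega) h4
      · rw [hT]
        simp only
        have h2 : Tendsto (fun j : ℕ => ((r + D * j + N0 + d s : ℕ) : ℝ) * h) atTop atTop := by
          refine Tendsto.atTop_mul_const hh (tendsto_natCast_atTop_atTop.comp ?_)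
          refine tendsto_atTop_mono (fun j => ?_) tendsto_id
          have : j ≤ D * j := Nat.le_mul_of_pos_left j (by omega)
          simp only [id]
          omega
        refine (((gS_tendsto (hδ s) hh.le).comp h2).const_mul (kap b)).congr fun j => ?_
        simp only [Function.comp]
        rw [sum_Wd]
      · have h2 : Tendsto (fun j : ℕ => Real.log 4 * Real.exp h / h * (1 / (j : ℝ))) atTop
            (𝓝 (Real.log 4 * Real.exp h / h * 0)) :=
          tendsto_one_div_atTop_nhds_zero_nat.const_mul _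
        rw [mul_zero] at h2
        refine squeeze_zero' (Eventually.of_forall fun j => Finset.sum_nonneg fun q _ => by positivity)
          ?_ h2
        filter_upwards [eventually_ge_atTop 1] with j hj
        have hj0 : (0 : ℝ) < j := by exact_mod_cast hj
        have h3 : ∑ q ∈ T s j, 1 / (q : ℝ) ≤ ∑ q ∈ T s j, Real.log q / (q : ℝ) * (1 / (j * h)) := by
          refine Finset.sum_le_sum fun q hq => ?_
          rw [hT] at hq
          simp only at hq
          rw [mem_Wd] at hq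
          obtain ⟨g1, g2, g3⟩ := hq
          have hq0 : (0 : ℝ) < q := (Real.exp_pos _).trans g2
          have h4 : (j : ℝ) * h ≤ Real.log q := by
            rw [Real.le_log_iff_exp_le hq0]
            refine le_trans (Real.exp_le_exp.2 (mul_le_mul_of_nonneg_right ?_ hh.le)) g2.le
            have : j ≤ D * j := Nat.le_mul_of_pos_left j (by omega)
            exact_mod_cast (by omega : j ≤ r + D * j + N0 + d s)
          rw [mul_one_div, _root_.div_div, div_le_div_iff₀ hq0 (by positivity)]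
          nlinarith
        refine h3.trans ?_
        rw [← Finset.sum_mul]
        have h5 : ∑ q ∈ T s j, Real.log q / (q : ℝ) ≤ Real.log 4 * Real.exp h := by
          rw [hT]
          simp only
          rw [sum_Wd]
          exact gS_bound (hSp s) _ hh.le
        calc _ ≤ Real.log 4 * Real.exp h * (1 / (j * h)) :=
              mul_le_mul_of_nonneg_right h5 (by positivity)
          _ = _ := by field_simp
    filter_upwards [ae_all_iff.2 hres] with β hβ hβl hβr
    have h2 : Ces (fun j => (fun g : ℕ => ∏ s ∈ range k,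
        ((good c b β (Wd (S s) h (g + N0 + d s))).card : ℝ)) j) (∏ s ∈ range k, kap b * (δ s * h)) :=
      ces_mod (fun j => Finset.prod_nonneg fun s _ => Nat.cast_nonneg _) hD1
        (fun r _ => hβ r hβl hβr)
    exact Ces.unshift N0 h2
  -- all amplitudes
  have hall : ∀ᵐ β : ℝ, ∀ M0 : ℕ, ((1 : ℕ) : ℝ) / (b : ℝ) ^ M0 < β →
      β ≤ ((b ^ (2 * M0) : ℕ) : ℝ) / (b : ℝ) ^ M0 →
      Ces (fun j => ∏ s ∈ range k, ((good c b β (Wd (S s) h (j + d s))).card : ℝ))
        (∏ s ∈ range k, kap b * (δ s * h)) :=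
    ae_all_iff.2 fun M0 => hone M0 1 (b ^ (2 * M0)) le_rfl (Nat.one_le_pow _ _ (by omega))
  filter_upwards [hall] with β hβ hβ0
  have hb1 : (1 : ℝ) < b := by exact_mod_cast (by omega : 1 < b)
  have ht : Tendsto (fun M0 : ℕ => (b : ℝ) ^ M0) atTop atTop := tendsto_pow_atTop_atTop_of_one_lt hb1
  obtain ⟨M0, h1, h2⟩ := ((ht.eventually_gt_atTop (1 / β)).and (ht.eventually_ge_atTop β)).exists
  refine hβ M0 ?_ ?_
  · rw [div_lt_iff₀ hβ0] at h1
    rw [div_lt_iff₀ (by positivity)]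
    push_cast
    linarith
  · have e : ((b ^ (2 * M0) : ℕ) : ℝ) / (b : ℝ) ^ M0 = (b : ℝ) ^ M0 := by
      push_cast
      rw [div_eq_iff (by positivity), ← pow_add]
      congr 1
      omega
    rw [e]
    exact h2

end Run7.h854.CO
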