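import Mathlib
import Pool.Agent.Run7.h854.PQ.Ces

set_option autoImplicit false

/-!
# Tuples with prescribed ratios, counted by the cells of a multiplicative grid
-/

namespace Run7.h854.CO

open Finset Filter Topology
open Run7.h854.PQ

/-- the offsets -/
def dd {r : ℕ} (e : Fin r → ℕ) (D s : ℕ) : ℕ := ∑ i ∈ range s, if hi : i < r then e ⟨i, hi⟩ else D

lemma dd_zero {r : ℕ} (e : Fin r → ℕ) (D : ℕ) : dd e D 0 = 0 := by
  unfold dd
  simp

lemma dd_succ {r : ℕ} (e : Fin r → ℕ) (D s : ℕ) :
    dd e D (s + 1) = dd e D s + if hi : s < r then e ⟨s, hi⟩ else D := by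
  unfold dd
  rw [Finset.sum_range_succ]

lemma dd_fin {r : ℕ} (e : Fin r → ℕ) (D : ℕ) (i : Fin r) :
    dd e D (i.succ : Fin (r + 1)) = dd e D (i.castSucc : Fin (r + 1)) + e i := by
  rw [Fin.val_succ, Fin.val_castSucc, dd_succ, dif_pos i.2]

lemma dd_ge {r : ℕ} {e : Fin r → ℕ} {D : ℕ} (he : ∀ i, D ≤ e i) (s : ℕ) :
    dd e D s + D ≤ dd e D (s + 1) := by
  rw [dd_succ]
  split_ifs with hi
  · have := he ⟨s, hi⟩
    omega
  · omega

/-- the tuples with prescribed ratios -/
def Qs {r : ℕ} (Es : ℕ → Set ℕ) (u v : Fin r → ℝ) (n : ℕ) : Set (Fin (r + 1) → ℕ) :=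
  {p | (∀ i : Fin (r + 1), p i ∈ Es i) ∧ p 0 ≤ n ∧
    ∀ i : Fin r, u i * p i.castSucc < p i.succ ∧ (p i.succ : ℝ) ≤ v i * p i.castSucc}

lemma cell_index {h : ℝ} (hh : 0 < h) {p : ℕ} (hp : 2 ≤ p) :
    ∃ g : ℕ, g * h < Real.log p ∧ Real.log p ≤ g * h + h := by
  have hp1 : (1 : ℝ) < p := by exact_mod_cast (by omega : 1 < p)
  have hlog : 0 < Real.log p := Real.log_pos hp1
  have h1 : 0 < ⌈Real.log p / h⌉₊ := Nat.ceil_pos.2 (by positivity)
  refine ⟨⌈Real.log p / h⌉₊ - 1, ?_, ?_⟩
  · have h2 := Nat.ceil_lt_add_one (show 0 ≤ Real.log p / h by positivity)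
    rw [Nat.cast_sub (by omega)]
    have h3 : ((⌈Real.log p / h⌉₊ : ℝ) - 1) < Real.log p / h := by linarith
    rw [lt_div_iff₀ hh] at h3
    push_cast
    exact h3
  · have h2 := Nat.le_ceil (Real.log p / h)
    rw [div_le_iff₀ hh] at h2
    rw [Nat.cast_sub (by omega)]
    push_cast
    linarith

section
variable {r : ℕ} {Es : ℕ → Set ℕ} {u v : Fin r → ℝ} {h : ℝ} {G : ℕ → ℕ → Finset ℕ}

theorem upper (hh : 0 < h) (h2 : ∀ s, ∀ p ∈ Es s, 2 ≤ p)
    (hG : ∀ s g p, p ∈ G s g ↔ p ∈ Es s ∧ g * h < Real.log p ∧ Real.log p ≤ g * h + h)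
    (hu : ∀ i, 1 ≤ u i ∧ u i ≤ v i) (D n : ℕ) :
    (Qs Es u v n).Finite ∧ (Qs Es u v n).ncard ≤ ∑ g ∈ range (⌊Real.log n / h⌋₊ + 1),
      ∑ e ∈ Fintype.piFinset (fun i => Icc ⌊Real.log (u i) / h⌋₊ ⌈Real.log (v i) / h⌉₊),
        ∏ s ∈ range (r + 1), (G s (g + dd e D s)).card := by
  classical
  set B : Finset (Fin r → ℕ) :=
    Fintype.piFinset (fun i => Icc ⌊Real.log (u i) / h⌋₊ ⌈Real.log (v i) / h⌉₊) with hB
  set X : Finset (Fin (r + 1) → ℕ) := (range (⌊Real.log n / h⌋₊ + 1)).biUnion fun g =>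
    B.biUnion fun e => Fintype.piFinset (fun s : Fin (r + 1) => G s (g + dd e D s)) with hX
  have hsub : Qs Es u v n ⊆ (X : Set (Fin (r + 1) → ℕ)) := by
    rintro p ⟨hp1, hp2, hp3⟩
    have hex : ∀ s : Fin (r + 1), ∃ g : ℕ, g * h < Real.log (p s) ∧ Real.log (p s) ≤ g * h + h :=
      fun s => cell_index hh (h2 s (p s) (hp1 s))
    choose g hg1 hg2 using hex
    have hpos : ∀ s : Fin (r + 1), (0 : ℝ) < p s := fun s => by
      have := h2 s (p s) (hp1 s)
      exact_mod_cast (by omega : 0 < p s)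
    have hlow : ∀ i : Fin r, Real.log (u i) < (g i.succ - g i.castSucc + 1) * h := by
      intro i
      have hu0 : 0 < u i := by linarith [(hu i).1]
      have h3 := Real.log_lt_log (mul_pos hu0 (hpos i.castSucc)) (hp3 i).1
      rw [Real.log_mul hu0.ne' (hpos _).ne'] at h3
      have h4 := hg1 i.castSucc
      have h5 := hg2 i.succ
      nlinarith
    have hupp : ∀ i : Fin r, ((g i.succ : ℝ) - g i.castSucc - 1) * h < Real.log (v i) := by
      intro i
      have hv0 : 0 < v i := by linarith [(hu i).1, (hu i).2]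
      have h3 := Real.log_le_log (hpos i.succ) (hp3 i).2
      rw [Real.log_mul hv0.ne' (hpos _).ne'] at h3
      have h4 := hg2 i.castSucc
      have h5 := hg1 i.succ
      nlinarith
    have hge : ∀ i : Fin r, g i.castSucc ≤ g i.succ := by
      intro i
      have h3 : 0 ≤ Real.log (u i) := Real.log_nonneg (hu i).1
      have h4 := (hlow i).trans_le' h3
      have h5 : 0 < (g i.succ : ℝ) - g i.castSucc + 1 := by
        by_contra hcon
        push Not at hcon
        nlinarith
      have h6 : (g i.castSucc : ℝ) < ((g i.succ + 1 : ℕ) : ℝ) := by push_cast; linarith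
      have h7 : g i.castSucc < g i.succ + 1 := by exact_mod_cast h6
      omega
    set e : Fin r → ℕ := fun i => g i.succ - g i.castSucc with he
    have her : ∀ i, (e i : ℝ) = g i.succ - g i.castSucc := by
      intro i
      rw [he]
      simp only
      rw [Nat.cast_sub (hge i)]
    have hkey : ∀ s : Fin (r + 1), g s = g 0 + dd e D s := by
      intro s
      induction s using Fin.induction with
      | zero => simp [dd_zero]
      | succ i ih =>
        rw [dd_fin, ← add_assoc, ← ih]
        have := hge i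
        rw [he]
        simp only
        omega
    rw [hX, mem_coe, mem_biUnion]
    refine ⟨g 0, ?_, ?_⟩
    · rw [mem_range, Nat.lt_succ_iff]
      refine Nat.le_floor ?_
      rw [le_div_iff₀ hh]
      refine (hg1 0).le.trans (Real.log_le_log (hpos 0) ?_)
      exact_mod_cast hp2
    · rw [mem_biUnion]
      refine ⟨e, ?_, ?_⟩
      · rw [hB, Fintype.mem_piFinset]
        intro i
        rw [mem_Icc]
        constructor
        · have h3 := hlow i
          rw [← her] at h3
          have h4 : Real.log (u i) / h < ((e i + 1 : ℕ) : ℝ) := by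
            rw [div_lt_iff₀ hh]
            push_cast
            exact h3
          have h5 := (Nat.floor_lt (div_nonneg (Real.log_nonneg (hu i).1) hh.le)).2 h4
          omega
        · have h3 := hupp i
          rw [← her, ← lt_div_iff₀ hh] at h3
          have h4 : (e i : ℝ) < ((⌈Real.log (v i) / h⌉₊ + 1 : ℕ) : ℝ) := by
            push_cast
            have := Nat.le_ceil (Real.log (v i) / h)
            linarith
          have h5 : e i < ⌈Real.log (v i) / h⌉₊ + 1 := by exact_mod_cast h4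
          omega
      · rw [Fintype.mem_piFinset]
        intro s
        rw [hG, ← hkey s]
        exact ⟨hp1 s, hg1 s, hg2 s⟩
  refine ⟨X.finite_toSet.subset hsub, ?_⟩
  calc (Qs Es u v n).ncard ≤ (X : Set (Fin (r + 1) → ℕ)).ncard :=
        Set.ncard_le_ncard hsub X.finite_toSet
    _ = X.card := Set.ncard_coe_finset X
    _ ≤ ∑ g ∈ range (⌊Real.log n / h⌋₊ + 1), (B.biUnion fun e =>
        Fintype.piFinset (fun s : Fin (r + 1) => G s (g + dd e D s))).card := Finset.card_biUnion_le
    _ ≤ ∑ g ∈ range (⌊Real.log n / h⌋₊ + 1), ∑ e ∈ B,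
        (Fintype.piFinset (fun s : Fin (r + 1) => G s (g + dd e D s))).card :=
        Finset.sum_le_sum fun g _ => Finset.card_biUnion_le
    _ = _ := by
        refine Finset.sum_congr rfl fun g _ => Finset.sum_congr rfl fun e _ => ?_
        rw [Fintype.card_piFinset, Finset.prod_range]

theorem lower (hh : 0 < h) (h2 : ∀ s, ∀ p ∈ Es s, 2 ≤ p)
    (hG : ∀ s g p, p ∈ G s g ↔ p ∈ Es s ∧ g * h < Real.log p ∧ Real.log p ≤ g * h + h)
    (hu : ∀ i, 1 ≤ u i ∧ u i ≤ v i) (D : ℕ) {n : ℕ} (hn : 1 ≤ n) :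
    ∑ g ∈ range ⌊Real.log n / h⌋₊,
      ∑ e ∈ Fintype.piFinset (fun i => Icc (⌈Real.log (u i) / h⌉₊ + 1) (⌊Real.log (v i) / h⌋₊ - 1)),
        ∏ s ∈ range (r + 1), (G s (g + dd e D s)).card ≤ (Qs Es u v n).ncard := by
  classical
  set B : Finset (Fin r → ℕ) :=
    Fintype.piFinset (fun i => Icc (⌈Real.log (u i) / h⌉₊ + 1) (⌊Real.log (v i) / h⌋₊ - 1)) with hB
  set X : Finset (Fin (r + 1) → ℕ) := (range ⌊Real.log n / h⌋₊ ×ˢ B).biUnion fun x =>
    Fintype.piFinset (fun s : Fin (r + 1) => G s (x.1 + dd x.2 D s)) with hX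
  have hsub : (X : Set (Fin (r + 1) → ℕ)) ⊆ Qs Es u v n := by
    intro p hp
    rw [hX, mem_coe, mem_biUnion] at hp
    obtain ⟨⟨g, e⟩, hge, hp⟩ := hp
    rw [mem_product, mem_range] at hge
    obtain ⟨hg, he⟩ := hge
    simp only at hg he
    rw [Fintype.mem_piFinset] at hp
    simp only [hG] at hp
    rw [hB, Fintype.mem_piFinset] at he
    have hpos : ∀ s : Fin (r + 1), (0 : ℝ) < p s := fun s => by
      have := h2 s (p s) (hp s).1
      exact_mod_cast (by omega : 0 < p s)
    refine ⟨fun s => (hp s).1, ?_, fun i => ?_⟩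
    · have h3 := (hp 0).2.2
      rw [Fin.val_zero, dd_zero, add_zero] at h3
      have h4 : ((g : ℝ) + 1) * h ≤ Real.log n := by
        have h5 : ((g + 1 : ℕ) : ℝ) ≤ Real.log n / h :=
          (by exact_mod_cast hg : ((g + 1 : ℕ) : ℝ) ≤ (⌊Real.log n / h⌋₊ : ℝ)).trans
            (Nat.floor_le (div_nonneg (Real.log_natCast_nonneg n) hh.le))
        rw [le_div_iff₀ hh] at h5
        push_cast at h5
        exact h5
      have h5 : Real.log (p 0) ≤ Real.log n := by linarith
      have h6 := (Real.log_le_log_iff (hpos 0) (by exact_mod_cast hn)).1 h5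
      exact_mod_cast h6
    · have h3 := hp i.castSucc
      have h4 := hp i.succ
      rw [dd_fin] at h4
      have h5 := he i
      rw [mem_Icc] at h5
      obtain ⟨h6, h7⟩ := h5
      have hu0 : 0 < u i := by linarith [(hu i).1]
      have hv0 : 0 < v i := by linarith [(hu i).1, (hu i).2]
      have h8 := h3.2.1
      have h9 := h3.2.2
      have h10 := h4.2.1
      have h11 := h4.2.2
      push_cast at h8 h9 h10 h11
      constructor
      · refine (Real.log_lt_log_iff (mul_pos hu0 (hpos _)) (hpos _)).1 ?_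
        rw [Real.log_mul hu0.ne' (hpos _).ne']
        have h12 : Real.log (u i) / h + 1 ≤ e i := by
          have h13 : ((⌈Real.log (u i) / h⌉₊ + 1 : ℕ) : ℝ) ≤ e i := by exact_mod_cast h6
          push_cast at h13
          have := Nat.le_ceil (Real.log (u i) / h)
          linarith
        have h13 : Real.log (u i) + h ≤ e i * h := by
          have := mul_le_mul_of_nonneg_right h12 hh.le
          rw [add_mul, div_mul_cancel₀ _ hh.ne', one_mul] at this
          exact this
        linarith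
      · refine (Real.log_le_log_iff (hpos _) (mul_pos hv0 (hpos _))).1 ?_
        rw [Real.log_mul hv0.ne' (hpos _).ne']
        have h12 : (e i : ℝ) + 1 ≤ Real.log (v i) / h := by
          have h13 : e i + 1 ≤ ⌊Real.log (v i) / h⌋₊ := by omega
          have h14 : ((e i + 1 : ℕ) : ℝ) ≤ (⌊Real.log (v i) / h⌋₊ : ℝ) := by exact_mod_cast h13
          push_cast at h14
          exact h14.trans (Nat.floor_le (div_nonneg (Real.log_nonneg (by linarith [(hu i).1, (hu i).2]))
            hh.le))
        have h13 : (e i : ℝ) * h + h ≤ Real.log (v i) := by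
          have := mul_le_mul_of_nonneg_right h12 hh.le
          rw [div_mul_cancel₀ _ hh.ne', add_mul, one_mul] at this
          exact this
        linarith
  have huniq : ∀ s g g' p, p ∈ G s g → p ∈ G s g' → g = g' := by
    intro s g g' p h3 h4
    rw [hG] at h3 h4
    rcases lt_trichotomy g g' with h5 | h5 | h5
    · have h6 : (g : ℝ) + 1 ≤ g' := by exact_mod_cast h5
      have h7 := mul_le_mul_of_nonneg_right h6 hh.le
      linarith [h3.2.2, h4.2.1]
    · exact h5
    · have h6 : (g' : ℝ) + 1 ≤ g := by exact_mod_cast h5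
      have h7 := mul_le_mul_of_nonneg_right h6 hh.le
      linarith [h4.2.2, h3.2.1]
  have hcard : X.card = ∑ g ∈ range ⌊Real.log n / h⌋₊, ∑ e ∈ B,
      ∏ s ∈ range (r + 1), (G s (g + dd e D s)).card := by
    rw [hX, Finset.card_biUnion]
    · rw [Finset.sum_product]
      refine Finset.sum_congr rfl fun g _ => Finset.sum_congr rfl fun e _ => ?_
      rw [Fintype.card_piFinset, Finset.prod_range]
    · rintro ⟨g, e⟩ _ ⟨g', e'⟩ _ hne
      rw [Function.onFun, Finset.disjoint_left]
      intro p hp hp'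
      rw [Fintype.mem_piFinset] at hp hp'
      simp only at hp hp'
      have h3 : ∀ s : Fin (r + 1), g + dd e D s = g' + dd e' D s := fun s =>
        huniq s _ _ _ (hp s) (hp' s)
      have h4 := h3 0
      rw [Fin.val_zero, dd_zero, dd_zero, add_zero, add_zero] at h4
      apply hne
      rw [Prod.mk.injEq]
      refine ⟨h4, funext fun i => ?_⟩
      have h5 := h3 i.succ
      have h6 := h3 i.castSucc
      rw [dd_fin, dd_fin] at h5
      omega
  rw [← hcard, ← Set.ncard_coe_finset X]
  exact Set.ncard_le_ncard hsub (upper hh h2 hG hu D n).1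

end

end Run7.h854.CO
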