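import Mathlib
import Pool.Agent.Run7.h854.CO.Grid
import Pool.Agent.Run7.h854.CO.Tup

set_option autoImplicit false

/-!
# The number of tuples of exponents with prescribed ratios
-/

namespace Run7.h854.CO

open Finset Filter Topology MeasureTheory
open Pool.Agent.H305R2 (roughPart)
open Pool.Agent.N176.OW (cell kap S_FM)
open Pool.Agent.N176.GP (NB NB_spec NB_div)
open Pool.Agent.N176.SH
open Run7.h854.PO Run7.h854.PQ Run7.h854.LB

/-- the exponents of `β` in `S` -/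
def Ex (c : ℕ → ℤ) (b : ℕ) (S : ℕ → Set ℕ) (β : ℝ) (s : ℕ) : Set ℕ :=
  {p | p ∈ S s ∧ (roughPart p (sh c p (NB b β p))).Prime}

lemma mem_G {c : ℕ → ℤ} {b : ℕ} {S : ℕ → Set ℕ} (hS : ∀ i, ∀ p ∈ S i, p.Prime) {β h : ℝ} (s g p : ℕ) :
    p ∈ good c b β (Wd (S s) h g) ↔
      p ∈ Ex c b S β s ∧ g * h < Real.log p ∧ Real.log p ≤ g * h + h := by
  unfold good Ex
  rw [mem_filter, mem_Wd, Set.mem_ofPred_eq]
  constructor
  · rintro ⟨⟨h1, h2, h3⟩, h4⟩
    have hp0 : (0 : ℝ) < p := by exact_mod_cast (hS s p h1).pos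
    exact ⟨⟨h1, h4⟩, (Real.lt_log_iff_exp_lt hp0).2 h2, (Real.log_le_iff_le_exp hp0).2 h3⟩
  · rintro ⟨⟨h1, h4⟩, h2, h3⟩
    have hp0 : (0 : ℝ) < p := by exact_mod_cast (hS s p h1).pos
    exact ⟨⟨h1, (Real.lt_log_iff_exp_lt hp0).1 h2, (Real.log_le_iff_le_exp hp0).1 h3⟩, h4⟩

/-- the sizes of the intervals of the offsets -/
lemma card_up {U V h : ℝ} (hh : 0 < h) (hU : 0 ≤ U) (hUV : U ≤ V) :
    h * ((Icc ⌊U / h⌋₊ ⌈V / h⌉₊).card : ℝ) ≤ V - U + 3 * h := by
  have h1 : ⌊U / h⌋₊ ≤ ⌈V / h⌉₊ + 1 := by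
    have h2 : (⌊U / h⌋₊ : ℝ) ≤ ⌈V / h⌉₊ :=
      (Nat.floor_le (by positivity)).trans ((div_le_div_of_nonneg_right hUV hh.le).trans (Nat.le_ceil _))
    have h3 : ⌊U / h⌋₊ ≤ ⌈V / h⌉₊ := by exact_mod_cast h2
    omega
  rw [Nat.card_Icc, Nat.cast_sub h1]
  push_cast
  have h2 := Nat.ceil_lt_add_one (show 0 ≤ V / h from div_nonneg (hU.trans hUV) hh.le)
  have h3 := Nat.lt_floor_add_one (U / h)
  have h4 : (⌈V / h⌉₊ : ℝ) + 1 - ⌊U / h⌋₊ ≤ V / h - U / h + 3 := by linarith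
  calc h * ((⌈V / h⌉₊ : ℝ) + 1 - ⌊U / h⌋₊) ≤ h * (V / h - U / h + 3) :=
        mul_le_mul_of_nonneg_left h4 hh.le
    _ = _ := by field_simp

lemma card_low {U V h : ℝ} (hh : 0 < h) (hU : 0 ≤ U) :
    max 0 (V - U - 3 * h) ≤ h * ((Icc (⌈U / h⌉₊ + 1) (⌊V / h⌋₊ - 1)).card : ℝ) := by
  refine max_le (by positivity) ?_
  rw [Nat.card_Icc]
  set m := ⌊V / h⌋₊ - 1 + 1 - (⌈U / h⌉₊ + 1) with hm
  have h1 : ⌊V / h⌋₊ ≤ m + (⌈U / h⌉₊ + 1) := by omega
  have h2 : (⌊V / h⌋₊ : ℝ) ≤ m + (⌈U / h⌉₊ + 1) := by exact_mod_cast h1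
  have h3 := Nat.lt_floor_add_one (V / h)
  have h4 := Nat.ceil_lt_add_one (show 0 ≤ U / h by positivity)
  have h5 : V / h - U / h - 3 ≤ m := by linarith
  have h6 := mul_le_mul_of_nonneg_left h5 hh.le
  refine le_trans (le_of_eq ?_) h6
  field_simp

theorem cor_ok {A : ℕ} (hA64 : 64 ≤ A) : ∃ C : ℝ, 1 ≤ C ∧
    ∀ (b : ℕ) (c : ℕ → ℤ), Ok b A c → ∀ (S : ℕ → Set ℕ) (δ : ℕ → ℝ), (∀ i, ∀ p ∈ S i, p.Prime) →
    (∀ i, HasD (S i) (δ i)) → ∀ᵐ β : ℝ, 0 < β → ∀ (r : ℕ) (u v : Fin r → ℝ),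
    (∀ i, C ≤ u i ∧ u i ≤ v i) →
    Tendsto (fun n : ℕ => ((Qs (Ex c b S β) u v n).ncard : ℝ) / Real.log n) atTop
      (𝓝 ((∏ s ∈ range (r + 1), kap b * δ s) * ∏ i, Real.log (v i / u i))) := by
  classical
  obtain ⟨Kc, hKc1, hgrid⟩ := grid_cor hA64
  have hK1 : (1 : ℝ) ≤ Kc := by exact_mod_cast hKc1
  refine ⟨2 * Kc * Real.exp 1, ?_, fun b c hOk S δ hSp hδ => ?_⟩
  · have := Real.add_one_le_exp (1 : ℝ)
    nlinarith
  have hb := hOk.hb
  have hκb := kap_nonneg b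
  have hδ0 : ∀ s, 0 ≤ δ s := fun s => (hδ s).nonneg
  set H : ℕ → ℝ := fun M => 1 / ((M : ℝ) + 2) with hH
  have hH0 : ∀ M, 0 < H M := fun M => by rw [hH]; positivity
  have hH2 : ∀ M, H M ≤ 1 / 2 := by
    intro M
    rw [hH]
    simp only
    apply one_div_le_one_div_of_le (by norm_num)
    have : (0 : ℝ) ≤ M := Nat.cast_nonneg M
    linarith
  have hlogK : 0 ≤ Real.log (2 * Kc) := Real.log_nonneg (by linarith)
  set D : ℕ → ℕ := fun M => ⌈Real.log (2 * Kc) / H M⌉₊ + 1 with hD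
  have hD1 : ∀ M, Real.log (2 * Kc) ≤ ((D M : ℝ) - 1) * H M := by
    intro M
    rw [hD]
    push_cast
    have := Nat.le_ceil (Real.log (2 * Kc) / H M)
    rw [div_le_iff₀ (hH0 M)] at this
    linarith
  have hD2 : ∀ M, (D M : ℝ) * H M ≤ Real.log (2 * Kc) + 1 := by
    intro M
    have h1 : (D M : ℝ) ≤ Real.log (2 * Kc) / H M + 2 := by
      rw [hD]
      push_cast
      have := Nat.ceil_lt_add_one (show 0 ≤ Real.log (2 * Kc) / H M from div_nonneg hlogK (hH0 M).le)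
      linarith
    have h2 := mul_le_mul_of_nonneg_right h1 (hH0 M).le
    rw [add_mul, div_mul_cancel₀ _ (hH0 M).ne'] at h2
    have := hH2 M
    linarith
  have hae : ∀ᵐ β : ℝ, ∀ (M r : ℕ) (e : Fin r → ℕ), (∀ i, D M ≤ e i) → 0 < β →
      Ces (fun j => ∏ s ∈ range (r + 1), ((good c b β (Wd (S s) (H M) (j + dd e (D M) s))).card : ℝ))
        (∏ s ∈ range (r + 1), kap b * (δ s * H M)) := by
    rw [ae_all_iff]
    intro M
    rw [ae_all_iff]
    intro r
    rw [ae_all_iff]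
    intro e
    by_cases he : ∀ i, D M ≤ e i
    · filter_upwards [hgrid b c hOk S δ hSp hδ (H M) (hH0 M) (D M) (Nat.le_add_left 1 _) (hD1 M)
        (dd e (D M)) (dd_ge he) (r + 1)] with β hβ _ hβ0
      exact hβ hβ0
    · exact Eventually.of_forall fun β h => absurd h he
  filter_upwards [hae] with β hβ hβ0 r u v huv
  have hu1 : ∀ i, 1 ≤ u i ∧ u i ≤ v i := fun i => by
    have := Real.add_one_le_exp (1 : ℝ)
    have h1 := (huv i).1
    exact ⟨by nlinarith, (huv i).2⟩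
  have hu0 : ∀ i, 0 < u i := fun i => by linarith [(hu1 i).1]
  have hv0 : ∀ i, 0 < v i := fun i => by linarith [hu0 i, (hu1 i).2]
  have hlu : ∀ i, Real.log (2 * Kc) + 1 ≤ Real.log (u i) := by
    intro i
    have h1 := Real.log_le_log (by positivity) (huv i).1
    rw [Real.log_mul (by positivity) (Real.exp_pos 1).ne', Real.log_exp] at h1
    exact h1
  have hlu0 : ∀ i, 0 ≤ Real.log (u i) := fun i => Real.log_nonneg (hu1 i).1
  have hluv : ∀ i, Real.log (u i) ≤ Real.log (v i) := fun i => Real.log_le_log (hu0 i) (hu1 i).2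
  have hE2 : ∀ s, ∀ p ∈ Ex c b S β s, 2 ≤ p := fun s p hp => (hSp s p hp.1).two_le
  set L : Fin r → ℝ := fun i => Real.log (v i / u i) with hL
  have hLe : ∀ i, L i = Real.log (v i) - Real.log (u i) := fun i => by
    rw [hL]
    exact Real.log_div (hv0 i).ne' (hu0 i).ne'
  set Pk := ∏ s ∈ range (r + 1), kap b * δ s with hPk
  have hPk0 : 0 ≤ Pk := Finset.prod_nonneg fun s _ => mul_nonneg hκb (hδ0 s)
  set N : ℕ → ℝ := fun n => ((Qs (Ex c b S β) u v n).ncard : ℝ) / Real.log n with hN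
  -- the number of cells
  have hlogt : Tendsto (fun n : ℕ => Real.log n) atTop atTop :=
    Real.tendsto_log_atTop.comp tendsto_natCast_atTop_atTop
  have hfl : ∀ M, Tendsto (fun n : ℕ => (⌊Real.log n / H M⌋₊ : ℝ) / Real.log n) atTop (𝓝 (1 / H M)) := by
    intro M
    have h1 : Tendsto (fun n : ℕ => Real.log n / H M) atTop atTop := hlogt.atTop_div_const (hH0 M)
    have h2 := (tendsto_nat_floor_div_atTop (R := ℝ)).comp h1
    have h3 := h2.mul_const (1 / H M)
    rw [one_mul] at h3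
    refine h3.congr' ?_
    filter_upwards [hlogt.eventually_gt_atTop 0] with n hn
    have := (hH0 M).ne'
    simp only [Function.comp]
    field_simp
  -- the sums over boxes
  have hbox : ∀ (M : ℕ) (B : Finset (Fin r → ℕ)), (∀ e ∈ B, ∀ i, D M ≤ e i) → ∀ J : ℕ → ℕ,
      Tendsto J atTop atTop → Tendsto (fun n : ℕ => (J n : ℝ) / Real.log n) atTop (𝓝 (1 / H M)) →
      Tendsto (fun n : ℕ => (∑ g ∈ range (J n), ∑ e ∈ B, ∏ s ∈ range (r + 1),
        ((good c b β (Wd (S s) (H M) (g + dd e (D M) s))).card : ℝ)) / Real.log n) atTop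
        (𝓝 (Pk * (H M) ^ r * B.card)) := by
    intro M B hB J hJ hJl
    have h1 : Ces (fun g => ∑ e ∈ B, ∏ s ∈ range (r + 1),
        ((good c b β (Wd (S s) (H M) (g + dd e (D M) s))).card : ℝ))
        (∑ e ∈ B, ∏ s ∈ range (r + 1), kap b * (δ s * H M)) :=
      Ces.sum B fun e he => hβ M r e (hB e he) hβ0
    have e1 : ∏ s ∈ range (r + 1), kap b * (δ s * H M) = Pk * (H M) ^ (r + 1) := by
      have e0 : (H M) ^ (r + 1) = ∏ _s ∈ range (r + 1), H M := by rw [Finset.prod_const, card_range]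
      rw [e0, hPk, ← Finset.prod_mul_distrib]
      exact Finset.prod_congr rfl fun s _ => by ring
    rw [Finset.sum_const, nsmul_eq_mul, e1] at h1
    have h2 := (Filter.Tendsto.comp h1 hJ).mul hJl
    have e2 : (B.card : ℝ) * (Pk * (H M) ^ (r + 1)) * (1 / H M) = Pk * (H M) ^ r * B.card := by
      have := (hH0 M).ne'
      rw [pow_succ]
      field_simp
    rw [e2] at h2
    refine h2.congr' ?_
    filter_upwards [hJ.eventually_ge_atTop 1] with n hn1
    have hJ0 : (J n : ℝ) ≠ 0 := by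
      have : (0 : ℝ) < J n := by exact_mod_cast hn1
      exact this.ne'
    exact div_mul_div_cancel₀ hJ0
  have hfloor_t : ∀ M, Tendsto (fun n : ℕ => ⌊Real.log n / H M⌋₊) atTop atTop := fun M =>
    tendsto_nat_floor_atTop.comp (hlogt.atTop_div_const (hH0 M))
  -- the upper bound
  have hUp : ∀ M, ∀ ε : ℝ, 0 < ε → ∀ᶠ n : ℕ in atTop, N n ≤ Pk * ∏ i, (L i + 3 * H M) + ε := by
    intro M ε hε
    set B : Finset (Fin r → ℕ) :=
      Fintype.piFinset (fun i => Icc ⌊Real.log (u i) / H M⌋₊ ⌈Real.log (v i) / H M⌉₊) with hB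
    have hBD : ∀ e ∈ B, ∀ i, D M ≤ e i := by
      intro e he i
      rw [hB, Fintype.mem_piFinset] at he
      refine le_trans ?_ (mem_Icc.1 (he i)).1
      refine Nat.le_floor ?_
      rw [le_div_iff₀ (hH0 M)]
      exact (hD2 M).trans (hlu i)
    have h1 := hbox M B hBD (fun n => ⌊Real.log n / H M⌋₊ + 1) (tendsto_add_atTop_nat 1 |>.comp (hfloor_t M))
      (by
        have h2 := (hfl M).add (hlogt.const_div_atTop 1)
        rw [add_zero] at h2
        refine h2.congr fun n => ?_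
        push_cast
        rw [add_div])
    have h3 : Pk * (H M) ^ r * B.card ≤ Pk * ∏ i, (L i + 3 * H M) := by
      rw [mul_assoc]
      refine mul_le_mul_of_nonneg_left ?_ hPk0
      rw [hB, Fintype.card_piFinset]
      push_cast
      have e1 : (H M) ^ r = ∏ _i : Fin r, H M := by rw [Finset.prod_const, card_univ, Fintype.card_fin]
      rw [e1, ← Finset.prod_mul_distrib]
      refine Finset.prod_le_prod (fun i _ => by have := (hH0 M).le; positivity) fun i _ => ?_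
      rw [hLe]
      exact card_up (hH0 M) (hlu0 i) (hluv i)
    filter_upwards [h1.eventually_lt_const (show Pk * (H M) ^ r * B.card <
      Pk * ∏ i, (L i + 3 * H M) + ε by linarith), hlogt.eventually_gt_atTop 0] with n hn hn0
    refine le_trans ?_ hn.le
    rw [hN]
    refine div_le_div_of_nonneg_right ?_ hn0.le
    have h4 := (upper (hH0 M) hE2 (fun s g p => mem_G hSp s g p) hu1 (D M) n).2
    exact_mod_cast h4
  -- the lower bound
  have hLow : ∀ M, ∀ ε : ℝ, 0 < ε → ∀ᶠ n : ℕ in atTop,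
      Pk * ∏ i, max 0 (L i - 3 * H M) - ε ≤ N n := by
    intro M ε hε
    set B : Finset (Fin r → ℕ) := Fintype.piFinset
      (fun i => Icc (⌈Real.log (u i) / H M⌉₊ + 1) (⌊Real.log (v i) / H M⌋₊ - 1)) with hB
    have hBD : ∀ e ∈ B, ∀ i, D M ≤ e i := by
      intro e he i
      rw [hB, Fintype.mem_piFinset] at he
      refine le_trans ?_ (mem_Icc.1 (he i)).1
      have h2 : (D M : ℝ) ≤ ⌈Real.log (u i) / H M⌉₊ := by
        refine le_trans ?_ (Nat.le_ceil _)
        rw [le_div_iff₀ (hH0 M)]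
        exact (hD2 M).trans (hlu i)
      have h3 : D M ≤ ⌈Real.log (u i) / H M⌉₊ := by exact_mod_cast h2
      omega
    have h1 := hbox M B hBD (fun n => ⌊Real.log n / H M⌋₊) (hfloor_t M) (hfl M)
    have h3 : Pk * ∏ i, max 0 (L i - 3 * H M) ≤ Pk * (H M) ^ r * B.card := by
      rw [mul_assoc]
      refine mul_le_mul_of_nonneg_left ?_ hPk0
      rw [hB, Fintype.card_piFinset]
      push_cast
      have e1 : (H M) ^ r = ∏ _i : Fin r, H M := by rw [Finset.prod_const, card_univ, Fintype.card_fin]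
      rw [e1, ← Finset.prod_mul_distrib]
      refine Finset.prod_le_prod (fun i _ => le_max_left _ _) fun i _ => ?_
      rw [hLe]
      exact card_low (hH0 M) (hlu0 i)
    filter_upwards [h1.eventually_const_lt (show Pk * ∏ i, max 0 (L i - 3 * H M) - ε <
      Pk * (H M) ^ r * B.card by linarith), hlogt.eventually_gt_atTop 0, eventually_ge_atTop 1]
      with n hn hn0 hn1
    refine hn.le.trans ?_
    rw [hN]
    refine div_le_div_of_nonneg_right ?_ hn0.le
    have h4 := lower (hH0 M) hE2 (fun s g p => mem_G hSp s g p) hu1 (D M) hn1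
    exact_mod_cast h4
  -- the limit
  have hHt : Tendsto H atTop (𝓝 0) := by
    have h1 := (tendsto_one_div_add_atTop_nhds_zero_nat (𝕜 := ℝ)).comp (tendsto_add_atTop_nat 1)
    refine h1.congr fun M => ?_
    simp only [Function.comp, hH]
    push_cast
    ring
  have hL0 : ∀ i, 0 ≤ L i := fun i => by rw [hLe]; linarith [hluv i]
  have ht1 : Tendsto (fun M => Pk * ∏ i, (L i + 3 * H M)) atTop (𝓝 (Pk * ∏ i, L i)) := by
    refine Filter.Tendsto.const_mul _ ?_
    refine tendsto_finsetProd _ fun i _ => ?_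
    have h1 := (hHt.const_mul 3).const_add (L i)
    rw [mul_zero, add_zero] at h1
    exact h1
  have ht2 : Tendsto (fun M => Pk * ∏ i, max 0 (L i - 3 * H M)) atTop (𝓝 (Pk * ∏ i, L i)) := by
    refine Filter.Tendsto.const_mul _ ?_
    refine tendsto_finsetProd _ fun i _ => ?_
    have h1 := (hHt.const_mul 3).const_sub (L i)
    rw [mul_zero, sub_zero] at h1
    have h2 := (tendsto_const_nhds (x := (0 : ℝ))).max h1
    rw [max_eq_right (hL0 i)] at h2
    exact h2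
  change Tendsto N atTop (𝓝 (Pk * ∏ i, L i))
  rw [Metric.tendsto_nhds]
  intro ε hε
  obtain ⟨M, hM1, hM2⟩ := ((ht1.eventually_lt_const (show Pk * ∏ i, L i < Pk * ∏ i, L i + ε / 2 by
    linarith)).and (ht2.eventually_const_lt (show Pk * ∏ i, L i - ε / 2 < Pk * ∏ i, L i by
    linarith))).exists
  filter_upwards [hUp M (ε / 4) (by positivity), hLow M (ε / 4) (by positivity)] with n hn1 hn2
  rw [Real.dist_eq, abs_lt]
  constructor <;> linarith

end Run7.h854.CO
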