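import Mathlib
import Pool.Agent.Run7.h854.CO.Lim
import Pool.Agent.Run7.h854.LB.All
import Pool.Agent.Helper601.PNT

set_option autoImplicit false

/-!
# The number of tuples of exponents with prescribed ratios, for all pairs
-/

namespace Run7.h854.CO

open Finset Filter Topology MeasureTheory
open Pool.Agent.H305R2 (roughPart)
open Pool.Agent.N176.OW (cell kap S_FM)
open Pool.Agent.N176.GP (NB NB_spec NB_div)
open Pool.Agent.N176.SH
open Run7.h854.PO Run7.h854.PQ Run7.h854.LB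

/-- the tuples with a small first element are finite in number -/
lemma small_finite {r : ℕ} (v : Fin r → ℝ) (P0 : ℕ) :
    {p : Fin (r + 1) → ℕ | p 0 < P0 ∧ ∀ i : Fin r, (p i.succ : ℝ) ≤ v i * p i.castSucc}.Finite := by
  have hex : ∀ s : Fin (r + 1), ∃ M : ℝ, 0 ≤ M ∧ ∀ p : Fin (r + 1) → ℕ, p 0 < P0 →
      (∀ i : Fin r, (p i.succ : ℝ) ≤ v i * p i.castSucc) → (p s : ℝ) ≤ M := by
    intro s
    induction s using Fin.induction with
    | zero =>
      refine ⟨P0, Nat.cast_nonneg _, fun p hp _ => ?_⟩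
      exact_mod_cast hp.le
    | succ i ih =>
      obtain ⟨M, hM0, hM⟩ := ih
      refine ⟨|v i| * M, by positivity, fun p hp hp' => (hp' i).trans ?_⟩
      calc v i * (p i.castSucc : ℝ) ≤ |v i| * (p i.castSucc : ℝ) :=
            mul_le_mul_of_nonneg_right (le_abs_self _) (Nat.cast_nonneg _)
        _ ≤ |v i| * M := mul_le_mul_of_nonneg_left (hM p hp hp') (abs_nonneg _)
  choose M hM0 hM using hex
  refine (Set.Finite.pi' (t := fun s => {k : ℕ | k ≤ ⌊M s⌋₊}) fun s => Set.finite_le_nat _).subset ?_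
  rintro p ⟨hp, hp'⟩ s
  exact Nat.le_floor (hM s p hp hp')

/-- finitely many exponents do not matter -/
lemma Qs_compare {r : ℕ} {Es Es' : ℕ → Set ℕ} {u v : Fin r → ℝ} (hu : ∀ i, 1 ≤ u i) {P0 : ℕ}
    (hE : ∀ s, ∀ p ≥ P0, p ∈ Es s → p ∈ Es' s) (hfin : ∀ n, (Qs Es' u v n).Finite) :
    ∃ C : ℕ, ∀ n, (Qs Es u v n).Finite ∧ (Qs Es u v n).ncard ≤ (Qs Es' u v n).ncard + C := by
  set F := {p : Fin (r + 1) → ℕ | p 0 < P0 ∧ ∀ i : Fin r, (p i.succ : ℝ) ≤ v i * p i.castSucc} with hF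
  have hFfin : F.Finite := small_finite v P0
  refine ⟨F.ncard, fun n => ?_⟩
  have hsub : Qs Es u v n ⊆ Qs Es' u v n ∪ F := by
    rintro p ⟨h1, h2, h3⟩
    rcases Nat.lt_or_ge (p 0) P0 with h | h
    · exact Or.inr ⟨h, fun i => (h3 i).2⟩
    · refine Or.inl ⟨fun s => ?_, h2, h3⟩
      have hge : ∀ s : Fin (r + 1), P0 ≤ p s := by
        intro s
        induction s using Fin.induction with
        | zero => exact h
        | succ i ih =>
          have h4 := (h3 i).1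
          have h5 : (1 : ℝ) * p i.castSucc ≤ u i * p i.castSucc :=
            mul_le_mul_of_nonneg_right (hu i) (Nat.cast_nonneg _)
          have h6 : (p i.castSucc : ℝ) < p i.succ := by linarith
          have h7 : p i.castSucc < p i.succ := by exact_mod_cast h6
          omega
      exact hE s (p s) (hge s) (h1 s)
  have hfin' : (Qs Es' u v n ∪ F).Finite := (hfin n).union hFfin
  exact ⟨hfin'.subset hsub, (Set.ncard_le_ncard hsub hfin').trans (Set.ncard_union_le _ _)⟩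

lemma Qs_limit {r : ℕ} {Es Es' : ℕ → Set ℕ} {u v : Fin r → ℝ} (hu : ∀ i, 1 ≤ u i) {P0 : ℕ}
    (hE : ∀ s, ∀ p ≥ P0, p ∈ Es s ↔ p ∈ Es' s) (hfin : ∀ n, (Qs Es' u v n).Finite) {l : ℝ}
    (h : Tendsto (fun n : ℕ => ((Qs Es' u v n).ncard : ℝ) / Real.log n) atTop (𝓝 l)) :
    Tendsto (fun n : ℕ => ((Qs Es u v n).ncard : ℝ) / Real.log n) atTop (𝓝 l) := by
  obtain ⟨C1, hC1⟩ := Qs_compare hu (fun s p hp => (hE s p hp).1) hfin
  obtain ⟨C2, hC2⟩ := Qs_compare hu (fun s p hp => (hE s p hp).2) fun n => (hC1 n).1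
  have hlogt : Tendsto (fun n : ℕ => Real.log n) atTop atTop :=
    Real.tendsto_log_atTop.comp tendsto_natCast_atTop_atTop
  have hz : Tendsto (fun n : ℕ => ((C1 : ℝ) + C2) / Real.log n) atTop (𝓝 0) :=
    hlogt.const_div_atTop _
  have hd : Tendsto (fun n : ℕ => ((Qs Es u v n).ncard : ℝ) / Real.log n -
      ((Qs Es' u v n).ncard : ℝ) / Real.log n) atTop (𝓝 0) := by
    refine squeeze_zero_norm' ?_ hz
    filter_upwards [hlogt.eventually_gt_atTop 0] with n hn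
    rw [Real.norm_eq_abs, ← sub_div, abs_div, abs_of_pos hn]
    refine div_le_div_of_nonneg_right ?_ hn.le
    have h1 : ((Qs Es u v n).ncard : ℝ) ≤ (Qs Es' u v n).ncard + C1 := by exact_mod_cast (hC1 n).2
    have h2 : ((Qs Es' u v n).ncard : ℝ) ≤ (Qs Es u v n).ncard + C2 := by exact_mod_cast (hC2 n).2
    have h3 : (0 : ℝ) ≤ C1 := Nat.cast_nonneg _
    have h4 : (0 : ℝ) ≤ C2 := Nat.cast_nonneg _
    rw [abs_le]
    constructor <;> linarith
  have h5 := hd.add h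
  simp only [sub_add_cancel, zero_add] at h5
  exact h5

/-- the exponents of the pair `(a, b)` in `S` -/
def EW (a : ℕ) (b : ℤ) (S : ℕ → Set ℕ) (β : ℝ) (s : ℕ) : Set ℕ := {p | p ∈ S s ∧ (WW a b β p).Prime}

/-- one pair -/
lemma pair_of_ok {A : ℕ} (hA64 : 64 ≤ A) : ∃ C : ℝ, 1 ≤ C ∧
    ∀ (a : ℕ) (b : ℤ), 1 ≤ |b| → ∀ c : ℕ → ℤ, Ok a A c → (∃ P0 : ℕ, ∀ p ≥ P0, c p = cc a b p) →
    ∀ (S : ℕ → Set ℕ) (δ : ℕ → ℝ), (∀ i, ∀ p ∈ S i, p.Prime) →
    (∀ i, HasD (S i) (δ i)) → ∀ᵐ β : ℝ, 0 < β → ∀ (r : ℕ) (u v : Fin r → ℝ),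
    (∀ i, C ≤ u i ∧ u i ≤ v i) →
    Tendsto (fun n : ℕ => ((Qs (EW a b S β) u v n).ncard : ℝ) / Real.log n) atTop
      (𝓝 ((∏ s ∈ range (r + 1), kap a * δ s) * ∏ i, Real.log (v i / u i))) := by
  obtain ⟨C, hC1, hC⟩ := cor_ok hA64
  refine ⟨C, hC1, fun a b hb1 c hOk hP S δ hSp hδ => ?_⟩
  obtain ⟨P0, hP0⟩ := hP
  have ha2 := hOk.hb
  filter_upwards [hC a c hOk S δ hSp hδ] with β hβ hβ0 r u v huv
  have hu1 : ∀ i, 1 ≤ u i ∧ u i ≤ v i := fun i => ⟨hC1.trans (huv i).1, (huv i).2⟩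
  have hfin : ∀ n, (Qs (Ex c a S β) u v n).Finite := by
    intro n
    classical
    exact (upper (G := fun s g => good c a β (Wd (S s) 1 g)) one_pos
      (fun s p hp => (hSp s p hp.1).two_le) (fun s g p => mem_G hSp s g p) hu1 1 n).1
  refine Qs_limit (P0 := max P0 3) (fun i => (hu1 i).1) (fun s p hp => ?_) hfin (hβ hβ0 r u v huv)
  have h5 : P0 ≤ p := (le_max_left P0 3).trans hp
  have h6 : 3 ≤ p := (le_max_right P0 3).trans hp
  have hkey : p ∈ S s → roughPart p (sh c p (NB a β p)) = WW a b β p := by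
    intro hpS
    have h7 : sh c p (NB a β p) = sh (cc a b) p (NB a β p) := by
      unfold sh
      rw [hP0 p h5]
    rw [h7]
    exact WW_eq ha2 hb1 hβ0 (Or.inl ((hSp s p hpS).odd_of_ne_two (by omega)))
  unfold EW Ex
  rw [Set.mem_ofPred_eq, Set.mem_ofPred_eq]
  constructor
  · rintro ⟨h7, h8⟩
    exact ⟨h7, by rw [hkey h7]; exact h8⟩
  · rintro ⟨h7, h8⟩
    rw [hkey h7] at h8
    exact ⟨h7, h8⟩

/-- all pairs -/
theorem cor_pairs : ∃ C : ℕ → ℤ → ℝ, ∃ C0 : ℝ,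
    (∀ (a : ℕ) (b : ℤ), b ^ 2 ≤ a → C a b = C0) ∧
    ∀ (S : ℕ → Set ℕ) (δ : ℕ → ℝ), (∀ i, ∀ p ∈ S i, p.Prime) → (∀ i, HasD (S i) (δ i)) →
    ∀ᵐ β : ℝ, 0 < β → ∀ (a : ℕ) (b : ℤ), 1 ≤ |b| → |b| < a → ∀ (r : ℕ) (u v : Fin r → ℝ),
    (∀ i, C a b ≤ u i ∧ u i ≤ v i) →
    Tendsto (fun n : ℕ => ((Qs (EW a b S β) u v n).ncard : ℝ) / Real.log n) atTop
      (𝓝 ((∏ s ∈ range (r + 1), kap a * δ s) * ∏ i, Real.log (v i / u i))) := by
  classical
  obtain ⟨C0, hC01, hC0⟩ := pair_of_ok (le_refl 64)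
  have hex : ∀ (a : ℕ) (b : ℤ), ∃ C : ℝ, (b ^ 2 ≤ a → C = C0) ∧ (1 ≤ |b| → |b| < a →
      ∀ (S : ℕ → Set ℕ) (δ : ℕ → ℝ), (∀ i, ∀ p ∈ S i, p.Prime) → (∀ i, HasD (S i) (δ i)) →
      ∀ᵐ β : ℝ, 0 < β → ∀ (r : ℕ) (u v : Fin r → ℝ), (∀ i, C ≤ u i ∧ u i ≤ v i) →
      Tendsto (fun n : ℕ => ((Qs (EW a b S β) u v n).ncard : ℝ) / Real.log n) atTop
        (𝓝 ((∏ s ∈ range (r + 1), kap a * δ s) * ∏ i, Real.log (v i / u i)))) := by
    intro a b
    by_cases hb2 : b ^ 2 ≤ a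
    · refine ⟨C0, fun _ => rfl, fun hb1 hba S δ hSp hδ => ?_⟩
      have ha2 : 2 ≤ a := by
        have : (2 : ℤ) ≤ a := by linarith
        exact_mod_cast this
      obtain ⟨c, hc1, hc2⟩ := okU ha2 hb1 hb2
      exact hC0 a b hb1 c hc1 hc2 S δ hSp hδ
    · by_cases hab : 1 ≤ |b| ∧ |b| < a
      · obtain ⟨A, hA⟩ := Pool.Agent.N372.SH.okp a b hab.1 hab.2
        obtain ⟨C, hC1, hC⟩ := pair_of_ok hA.hA
        exact ⟨C, fun h => absurd h hb2, fun hb1 hba S δ hSp hδ =>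
          hC a b hb1 (cc a b) hA ⟨0, fun _ _ => rfl⟩ S δ hSp hδ⟩
      · exact ⟨C0, fun h => absurd h hb2, fun hb1 hba => absurd ⟨hb1, hba⟩ hab⟩
  choose C hC1 hC2 using hex
  refine ⟨C, C0, hC1, fun S δ hSp hδ => ?_⟩
  refine all_pairs (P := fun β a b => ∀ (r : ℕ) (u v : Fin r → ℝ), (∀ i, C a b ≤ u i ∧ u i ≤ v i) →
    Tendsto (fun n : ℕ => ((Qs (EW a b S β) u v n).ncard : ℝ) / Real.log n) atTop
      (𝓝 ((∏ s ∈ range (r + 1), kap a * δ s) * ∏ i, Real.log (v i / u i)))) fun a b hb1 hba => ?_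
  exact hC2 a b hb1 hba S δ hSp hδ

/-- the primes in a residue class have a density -/
theorem hasD_class {q : ℕ} [NeZero q] {a : ZMod q} (ha : IsUnit a) :
    HasD {p : ℕ | p.Prime ∧ (p : ZMod q) = a} ((q.totient : ℝ)⁻¹) := by
  classical
  have h0 := Pool.Agent.Helper601.PNT.pnt_residueClass ha
  have h1 : Tendsto (fun x : ℝ => (∑ k ∈ Icc 1 ⌊x⌋₊, ArithmeticFunction.vonMangoldt.residueClass a k -
      th {p : ℕ | p.Prime ∧ (p : ZMod q) = a} x) / x) atTop (𝓝 0) := by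
    obtain ⟨C, hC⟩ := Chebyshev.psi_sub_theta_le_mul_sqrt
    have h2 : Tendsto (fun x : ℝ => C * (Real.sqrt x)⁻¹) atTop (𝓝 0) := by
      have := (tendsto_inv_atTop_zero.comp Real.tendsto_sqrt_atTop).const_mul C
      simpa [Function.comp_def] using this
    have hterm : ∀ k : ℕ, 0 ≤ ArithmeticFunction.vonMangoldt.residueClass a k -
        Set.indicator {p : ℕ | p.Prime ∧ (p : ZMod q) = a} (fun p : ℕ => Real.log p) k ∧
        ArithmeticFunction.vonMangoldt.residueClass a k -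
        Set.indicator {p : ℕ | p.Prime ∧ (p : ZMod q) = a} (fun p : ℕ => Real.log p) k ≤
        ArithmeticFunction.vonMangoldt k - (if k.Prime then Real.log k else 0) := by
      intro k
      unfold ArithmeticFunction.vonMangoldt.residueClass
      by_cases hk : (k : ZMod q) = a
      · rw [Set.indicator_of_mem (show k ∈ {n : ℕ | (n : ZMod q) = a} from hk)]
        by_cases hp : k.Prime
        · rw [Set.indicator_of_mem (show k ∈ {p : ℕ | p.Prime ∧ (p : ZMod q) = a} from ⟨hp, hk⟩),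
            if_pos hp, ArithmeticFunction.vonMangoldt_apply_prime hp]
          simp
        · rw [Set.indicator_of_notMem (fun h => hp h.1), if_neg hp]
          simp [ArithmeticFunction.vonMangoldt_nonneg]
      · rw [Set.indicator_of_notMem (show k ∉ {n : ℕ | (n : ZMod q) = a} from hk),
          Set.indicator_of_notMem (fun h => hk h.2)]
        refine ⟨by simp, ?_⟩
        by_cases hp : k.Prime
        · rw [if_pos hp, ArithmeticFunction.vonMangoldt_apply_prime hp]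
          simp
        · rw [if_neg hp]
          simp [ArithmeticFunction.vonMangoldt_nonneg]
    refine squeeze_zero' ?_ ?_ h2
    · filter_upwards [eventually_gt_atTop 0] with x hx
      refine div_nonneg ?_ hx.le
      unfold th
      rw [← Finset.sum_sub_distrib]
      exact Finset.sum_nonneg fun k _ => (hterm k).1
    · filter_upwards [eventually_ge_atTop 2] with x hx
      have hx0 : 0 < x := by linarith
      have h3 : ∑ k ∈ Icc 1 ⌊x⌋₊, ArithmeticFunction.vonMangoldt.residueClass a k -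
          th {p : ℕ | p.Prime ∧ (p : ZMod q) = a} x ≤ Chebyshev.psi x - Chebyshev.theta x := by
        unfold th Chebyshev.psi Chebyshev.theta
        rw [← Finset.sum_sub_distrib, Finset.sum_filter]
        have e : Icc 1 ⌊x⌋₊ = Ioc 0 ⌊x⌋₊ := by
          ext p
          simp only [mem_Icc, mem_Ioc]
          omega
        rw [e, ← Finset.sum_sub_distrib]
        exact Finset.sum_le_sum fun k _ => (hterm k).2
      have h4 := hC x
      rw [div_le_iff₀ hx0]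
      have hs : 0 < Real.sqrt x := Real.sqrt_pos.2 hx0
      have e : C * (Real.sqrt x)⁻¹ * x = C * Real.sqrt x := by
        have : x = Real.sqrt x * Real.sqrt x := (Real.mul_self_sqrt hx0.le).symm
        calc C * (Real.sqrt x)⁻¹ * x = C * (Real.sqrt x)⁻¹ * (Real.sqrt x * Real.sqrt x) := by rw [← this]
          _ = C * Real.sqrt x := by field_simp
      rw [e]
      linarith
  have h5 := h0.sub h1
  rw [sub_zero] at h5
  refine h5.congr fun x => ?_
  rw [← sub_div, sub_sub_cancel]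

end Run7.h854.CO
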